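import Mathlib

/-!
Shared definitions for MP_d63fc1_co (reflexivity of point sets).
-/

namespace Pool.Agent.H57.Refl

/-- Twice the signed area of the triangle `abc`: positive iff `a → b → c` is a left turn. -/
def det3 (a b c : ℝ × ℝ) : ℝ := (b.1 - a.1) * (c.2 - a.2) - (b.2 - a.2) * (c.1 - a.1)

/-- `f 0, f 1, …, f (n-1)` (cyclically) is a simple polygon: `n ≥ 3`, the vertices are distinct, and two different
edges meet at most in a common end point. -/
def IsSimplePolygon (n : ℕ) [NeZero n] (f : Fin n → ℝ × ℝ) : Prop :=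
  3 ≤ n ∧ Function.Injective f ∧
    ∀ i j : Fin n, i ≠ j →
      segment ℝ (f i) (f (i + 1)) ∩ segment ℝ (f j) (f (j + 1)) ⊆ {f i, f (i + 1)} ∩ {f j, f (j + 1)}

/-- Twice the signed area (positive iff the simple polygon is traversed counterclockwise). -/
noncomputable def area2 (n : ℕ) [NeZero n] (f : Fin n → ℝ × ℝ) : ℝ :=
  ∑ i : Fin n, ((f i).1 * (f (i + 1)).2 - (f (i + 1)).1 * (f i).2)

open Classical in
/-- The number of reflex vertices: the right turns if the polygon is traversed counterclockwise, the left turns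
otherwise. -/
noncomputable def reflexCount (n : ℕ) [NeZero n] (f : Fin n → ℝ × ℝ) : ℕ :=
  if 0 < area2 n f then (Finset.univ.filter fun i : Fin n => det3 (f (i - 1)) (f i) (f (i + 1)) < 0).card
  else (Finset.univ.filter fun i : Fin n => 0 < det3 (f (i - 1)) (f i) (f (i + 1))).card

/-- The reflexivity of a point set: the least number of reflex vertices of a simple polygon whose vertex set is
exactly `P`. -/
noncomputable def rho (P : Set (ℝ × ℝ)) : ℕ :=
  sInf {k | ∃ (n : ℕ) (_ : NeZero n) (f : Fin n → ℝ × ℝ), IsSimplePolygon n f ∧ Set.range f = P ∧ k = reflexCount n f}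

/-! ### Integer / index level -/

/-- Integer orientation determinant. -/
def detZ (a b c : ℤ × ℤ) : ℤ := (b.1 - a.1) * (c.2 - a.2) - (b.2 - a.2) * (c.1 - a.1)

/-- `a → b → c` is a left turn (indices into `pts`). -/
def lft (pts : ℕ → ℤ × ℤ) (a b c : ℕ) : Bool := decide (0 < detZ (pts a) (pts b) (pts c))

/-- `a → b → c` is a right turn (indices into `pts`). -/
def rgt (pts : ℕ → ℤ × ℤ) (a b c : ℕ) : Bool := decide (detZ (pts a) (pts b) (pts c) < 0)

/-- The index segments `ab` and `cd` cross (meaningful for four different indices in general position). -/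
def crs (pts : ℕ → ℤ × ℤ) (a b c d : ℕ) : Bool :=
  (lft pts a b c != lft pts a b d) && (lft pts c d a != lft pts c d b)

/-- Consecutive pairs of a list. -/
def pairs : List ℕ → List (ℕ × ℕ)
  | a :: b :: t => (a, b) :: pairs (b :: t)
  | _ => []

/-- Consecutive triples of a list. -/
def triples : List ℕ → List (ℕ × ℕ × ℕ)
  | a :: b :: c :: t => (a, b, c) :: triples (b :: c :: t)
  | _ => []

/-- No two edges of the index path `p` with four different end points cross. -/
def NoCross (pts : ℕ → ℤ × ℤ) (p : List ℕ) : Prop :=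
  ∀ e ∈ pairs p, ∀ f ∈ pairs p, e.1 ≠ f.1 → e.1 ≠ f.2 → e.2 ≠ f.1 → e.2 ≠ f.2 → crs pts e.1 e.2 f.1 f.2 = false

/-- `s :: l` lists every index `< n` exactly once, the closed path `s, l, s` has no crossings, and the turn at `s`
is a left turn. -/
def CycOK (n s : ℕ) (pts : ℕ → ℤ × ℤ) (l : List ℕ) : Prop :=
  (s :: l).Nodup ∧ (∀ i, i ∈ s :: l ↔ i < n) ∧ NoCross pts (s :: l ++ [s]) ∧
    ∃ (h : l ≠ []), lft pts (l.getLast h) s (l.head h) = true

end Pool.Agent.H57.Refl
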