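/-!
Kernel-friendly exhaustive search (all children of a node are handled at once in the lanes of one natural number).
The file deliberately imports nothing.
-/
set_option autoImplicit false
set_option linter.unusedVariables false
namespace Pool.Agent.H57

/-- Numeric constants used by the search. -/
structure Par where
  n : Nat
  rp : Nat
  sh : Nat
  ss : Nat
  Mn : Nat
  MF : Nat
  REP : Nat
  G : Nat
  O : Nat
  MX : Nat
  MXFB : Nat
  KF : Nat
  Kn : Nat
  RB : Nat
  GB : Nat
  DG : Nat
  DR : Nat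
  KR : Nat
  NR : Nat

noncomputable section

/-- A record of constants attached to a vertex: edge table, dummy bits, row position, closing turns. -/
abbrev Rec : Type := (Nat → Nat → Nat → Nat → Nat → Bool) → Nat → Bool

/-- `force x f = f x`; the kernel evaluates `x` first (and hence caches `f x` under the value of `x`). -/
def force (x : Nat) (f : Nat → Bool) : Bool :=
  Nat.rec (motive := fun _ => Bool) (Bool.rec (motive := fun _ => Bool) false true (f (nat_lit 0)))
    (fun n _ => Bool.rec (motive := fun _ => Bool) false true (f (Nat.succ n))) x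

def stepc (P : Par) (AA UB c : Nat) : Nat :=
  Nat.land (Nat.shiftRight (Nat.mul (Nat.land (Nat.add (Nat.land (Nat.mul c P.RB) AA) P.MX) P.G) P.Kn) P.sh) UB

def bfsStep (c : Nat) (ih : Nat → Nat) (c' : Nat) : Nat :=
  Bool.rec (motive := fun _ => Nat) (ih c') c (Nat.beq c' c)

def bfs (P : Par) (AA UB : Nat) : Nat → Nat → Nat :=
  Nat.rec (motive := fun _ => Nat → Nat) (fun c => UB) (fun _ ih c => bfsStep c ih (stepc P AA UB c))

def seed (P : Par) (UB : Nat) : Nat := Nat.xor UB (Nat.land UB (Nat.sub (Nat.lor UB P.GB) P.REP))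

def child (P : Par) (ih : Rec → Nat → Bool) (TX3 : Nat) (r : Rec) (sh : Nat) : Bool :=
  force (Nat.land (Nat.shiftRight TX3 sh) P.MF) (ih r)

def fin (P : Par) (kids : (Rec → Nat → Bool) → Nat → Bool) (ih : Rec → Nat → Bool) (TX3 cb UB c : Nat) : Bool :=
  kids (child P ih TX3) (Nat.land (Nat.shiftRight (Nat.sub P.GB (Nat.xor c UB)) P.n) cb)

def tx3 (P : Par) (TX2 : Nat) : Nat := Nat.land TX2 (Nat.lor (Nat.mul (Nat.land TX2 P.DR) P.KR) P.NR)

def n5 (P : Par) (kids : (Rec → Nat → Bool) → Nat → Bool) (ih : Rec → Nat → Bool) (TX TX2 cb UB : Nat) : Bool :=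
  fin P kids ih (tx3 P TX2) cb UB (bfs P (Nat.lor TX P.DG) UB P.n (seed P UB))

def n4 (P : Par) (kids : (Rec → Nat → Bool) → Nat → Bool) (ih : Rec → Nat → Bool) (R TX cb : Nat) : Bool :=
  n5 P kids ih TX (Nat.sub TX (Nat.land cb (Nat.mul R P.KF))) cb
    (Nat.land (Nat.shiftRight TX (nat_lit 3)) (Nat.mul cb P.Mn))

def n3 (P : Par) (kids : (Rec → Nat → Bool) → Nat → Bool) (ih : Rec → Nat → Bool) (R TX cb : Nat) : Bool :=
  Bool.rec (motive := fun _ => Bool) (n4 P kids ih R TX cb) true (Nat.beq cb (nat_lit 0))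

def nzr (P : Par) (E : Nat) : Nat := Nat.land (Nat.add E P.MX) P.G

def okm (P : Par) (TX : Nat) : Nat :=
  Nat.land (Nat.shiftRight (Nat.add (nzr P (Nat.land TX (Nat.sub (Nat.lor TX P.G) P.O))) P.MXFB) P.rp) P.REP

def n2 (P : Par) (kids : (Rec → Nat → Bool) → Nat → Bool) (ih : Rec → Nat → Bool) (R TX cand : Nat) : Bool :=
  n3 P kids ih R TX (Nat.land (okm P TX) (Nat.mul cand P.KF))

def n1 (P : Par) (kids : (Rec → Nat → Bool) → Nat → Bool) (ih : Rec → Nat → Bool) (T D S row R : Nat) : Bool :=
  n2 P kids ih R (Nat.lor (Nat.land (Nat.mul S P.REP) T) D)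
    (Bool.rec (motive := fun _ => Nat) row (Nat.xor row (Nat.land row R)) (Nat.beq (Nat.land S (nat_lit 7)) (nat_lit 0)))

def node (P : Par) (kids : (Rec → Nat → Bool) → Nat → Bool) (ih : Rec → Nat → Bool) (T D vs RS S : Nat) : Bool :=
  n1 P kids ih T D S (Nat.land (Nat.shiftRight S vs) P.Mn) (Nat.shiftRight S P.rp)

def last2 (P : Par) (row R RS S U : Nat) : Bool :=
  Bool.rec (motive := fun _ => Bool)
    (Bool.rec (motive := fun _ => Bool)
      (Nat.ble (Nat.succ (Nat.land S (nat_lit 7)))
        (Nat.add (Bool.rec (motive := fun _ => Nat) (nat_lit 1) (nat_lit 0) (Nat.beq (Nat.land R U) (nat_lit 0)))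
          (Bool.rec (motive := fun _ => Nat) (nat_lit 1) (nat_lit 0) (Nat.beq (Nat.land RS U) (nat_lit 0)))))
      true (Nat.beq (Nat.land (Nat.shiftRight S P.ss) U) (nat_lit 0)))
    true (Nat.beq (Nat.land row U) (nat_lit 0))

def last (P : Par) (T D vs RS S : Nat) : Bool :=
  last2 P (Nat.land (Nat.shiftRight S vs) P.Mn) (Nat.shiftRight S P.rp) RS S
    (Nat.land (Nat.shiftRight S (nat_lit 3)) P.Mn)

/-- Search of depth `k` above the given base oracle. -/
def searchB (P : Par) (kids : (Rec → Nat → Bool) → Nat → Bool) (base : Rec → Nat → Bool) (k : Nat) :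
    Rec → Nat → Bool :=
  Nat.rec (motive := fun _ => Rec → Nat → Bool) base (fun _ ih r => r (node P kids ih)) k

/-- Search of depth `k`. -/
def search (P : Par) (kids : (Rec → Nat → Bool) → Nat → Bool) (k : Nat) : Rec → Nat → Bool :=
  searchB P kids (fun r => r (last P)) k

/-- Search trees of already refuted states `(row position, state)`. -/
inductive Tr : Type where
  | leaf (v S : Nat) : Tr
  | node (key : Nat) (l r : Tr) : Tr

/-- All states of the tree are refuted by the depth-`k` search. -/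
def allT (P : Par) (kids : (Rec → Nat → Bool) → Nat → Bool) (vtx : Nat → Rec) (k : Nat) (t : Tr) : Bool :=
  Tr.rec (motive := fun _ => Bool) (fun v S => search P kids k (vtx v) S)
    (fun _ _ _ a b => Bool.rec (motive := fun _ => Bool) false b a) t

def leafq (S' S : Nat) (v' vs W rb : Nat) : Bool :=
  Bool.rec (motive := fun _ => Bool) false (Nat.beq (Nat.add (Nat.mul v' W) rb) vs) (Nat.beq S' S)

/-- Membership of `(v, S)` in a search tree. -/
def look (W rb : Nat) (t : Tr) (key vs S : Nat) : Bool :=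
  Tr.rec (motive := fun _ => Bool) (fun v' S' => leafq S' S v' vs W rb)
    (fun p _ _ a b => Bool.rec (motive := fun _ => Bool) a b (Nat.ble p key)) t

end
end Pool.Agent.H57
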