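import Mathlib
import Pool.Agent.helper57.refl.Core
import Pool.Agent.helper57.refl.LaneLib

/-! Bit-level semantics of the lane operations of `Core.lean`. -/

namespace Pool.Agent.H57
open Lane

/-- Position of column `j` of row `i` inside a lane. -/
def q (n i j : ℕ) : ℕ := 3 + n + (n + 2) * i + j

def Ol (n : ℕ) : ℕ := 2 ^ (3 + n) * rep (n + 2) n
def Gl (n : ℕ) : ℕ := 2 ^ (n + 1) * Ol n
def MXl (n : ℕ) : ℕ := (2 ^ (n + 1) - 1) * Ol n

/-- Closed forms of the constants. -/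
structure POK (P : Par) (FW L f : ℕ) : Prop where
  hn : 2 ≤ P.n
  L_le : L ≤ P.n
  FW_eq : FW = (P.n + 1) * f
  f_ge : P.n ≤ f
  rp_eq : P.rp = q P.n P.n 0
  FW_ge : P.rp + P.n ≤ FW
  sh_eq : P.sh = (P.n + 1) * P.n + (3 + P.n)
  Mn_eq : P.Mn = 2 ^ P.n - 1
  MF_eq : P.MF = 2 ^ FW - 1
  REP_eq : P.REP = rep FW L
  G_eq : P.G = Gl P.n * rep FW L
  O_eq : P.O = Ol P.n * rep FW L
  MX_eq : P.MX = MXl P.n * rep FW L
  MXFB_eq : P.MXFB = (MXl P.n + 2 ^ (3 + P.n)) * rep FW L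
  KF_eq : P.KF = rep (FW - 1) L
  Kn_eq : P.Kn = rep (P.n + 1) P.n
  RB_eq : P.RB = Ol P.n
  GB_eq : P.GB = 2 ^ P.n * rep FW L
  NR_eq : P.NR = (2 ^ P.rp - 1) * rep FW L
  DG_bit : ∀ k < L, ∀ i < P.n, P.DG.testBit (FW * k + q P.n i i) = true

/-! ### generic lemmas -/

theorem and_div (a b r : ℕ) : (a &&& b) / 2 ^ r = a / 2 ^ r &&& b / 2 ^ r := by
  apply Nat.eq_of_testBit_eq; intro j; simp [Nat.testBit_div_two_pow]

theorem or_div (a b r : ℕ) : (a ||| b) / 2 ^ r = a / 2 ^ r ||| b / 2 ^ r := by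
  apply Nat.eq_of_testBit_eq; intro j; simp [Nat.testBit_div_two_pow]

theorem rep_zero (F : ℕ) : rep F 0 = 0 := by simp [rep]

theorem rep_succ (F L : ℕ) : rep F (L + 1) = rep F L + 2 ^ (F * L) := by
  simp [rep, Finset.sum_range_succ]

theorem rep_succ' (F L : ℕ) : rep F (L + 1) = 1 + 2 ^ F * rep F L := by
  unfold rep
  rw [Finset.sum_range_succ', Finset.mul_sum]
  simp only [mul_zero, pow_zero]
  rw [add_comm]
  congr 1
  apply Finset.sum_congr rfl
  intro k _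
  rw [← pow_add]; congr 1; ring

theorem rep_geom (F L : ℕ) : (2 ^ F - 1) * rep F L + 1 = 2 ^ (F * L) := by
  induction L with
  | zero => simp [rep_zero]
  | succ L ih =>
    rw [rep_succ, mul_add, Nat.sub_mul _ _ (2 ^ (F * L))]
    have : 2 ^ F * 2 ^ (F * L) = 2 ^ (F * (L + 1)) := by rw [← pow_add]; congr 1; ring
    rw [this]
    have h2 : 2 ^ (F * L) ≤ 2 ^ (F * (L + 1)) := Nat.pow_le_pow_right (by norm_num) (by nlinarith)
    omega

theorem le_rep_of_lanes {F N x c : ℕ} (hx : x < 2 ^ (F * N)) (h : ∀ i < N, lane F i x ≤ c) : x ≤ c * rep F N := by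
  induction N generalizing x with
  | zero => simp at hx; omega
  | succ N ih =>
    have h0 := h 0 (by omega)
    rw [lane_zero'] at h0
    have h1 : x / 2 ^ F ≤ c * rep F N := by
      apply ih
      · rw [Nat.div_lt_iff_lt_mul (by positivity), ← pow_add]; convert hx using 2; ring
      · intro i hi; have := h (i + 1) (by omega); rwa [lane_succ] at this
    have e1 := Nat.div_add_mod x (2 ^ F)
    rw [rep_succ']
    calc x = 2 ^ F * (x / 2 ^ F) + x % 2 ^ F := e1.symm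
      _ ≤ 2 ^ F * (c * rep F N) + c := Nat.add_le_add (Nat.mul_le_mul_left _ h1) h0
      _ = c * (1 + 2 ^ F * rep F N) := by ring

theorem lane_rep_mul' {F L c : ℕ} (hc : c < 2 ^ F) (k : ℕ) : lane F k (c * rep F L) = if k < L then c else 0 :=
  lane_mul_rep hc k

theorem lane_of_lt {F L x k : ℕ} (hx : x < 2 ^ (F * L)) (hk : L ≤ k) : lane F k x = 0 := by
  unfold lane
  rw [Nat.div_eq_of_lt, Nat.zero_mod]
  exact lt_of_lt_of_le hx (Nat.pow_le_pow_right (by norm_num) (Nat.mul_le_mul_left _ hk))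

theorem testBit_of_lane {F k x t : ℕ} (ht : t < F) : x.testBit (F * k + t) = (lane F k x).testBit t := by
  rw [testBit_lane]; simp [ht]

theorem Ol_lt (n : ℕ) : Ol n < 2 ^ (q n n 0) := by
  have h := rep_geom (n + 2) n
  have h1 : rep (n + 2) n < 2 ^ ((n + 2) * n) := by
    have : 1 ≤ 2 ^ (n + 2) - 1 := by
      have : 2 ^ 1 ≤ 2 ^ (n + 2) := Nat.pow_le_pow_right (by norm_num) (by omega)
      omega
    nlinarith
  have e : q n n 0 = (3 + n) + (n + 2) * n := by unfold q; ring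
  rw [e, pow_add]
  unfold Ol
  exact (Nat.mul_lt_mul_left (Nat.two_pow_pos _)).mpr h1

theorem Gl_add (n : ℕ) : Gl n + (MXl n + 2 ^ (3 + n)) = 2 ^ (q n n 0) := by
  have h := rep_geom (n + 2) n
  have h2 : 2 ^ (n + 1) * Ol n + (2 ^ (n + 1) - 1) * Ol n = (2 ^ (n + 2) - 1) * Ol n := by
    rw [← add_mul]; congr 1
    have : 2 ^ (n + 2) = 2 * 2 ^ (n + 1) := by rw [pow_succ]; ring
    have h1 : 1 ≤ 2 ^ (n + 1) := Nat.one_le_two_pow
    omega
  unfold Gl MXl
  rw [← add_assoc, h2]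
  have e : q n n 0 = (3 + n) + (n + 2) * n := by unfold q; ring
  rw [e, pow_add 2 (3 + n), ← h]
  unfold Ol
  ring

theorem MXl_lt (n : ℕ) : MXl n < 2 ^ (q n n 0) := by
  have := Gl_add n
  have h : 0 < 2 ^ (3 + n) := by positivity
  omega

theorem Gl_lt (n : ℕ) : Gl n < 2 ^ (q n n 0) := by
  have := Gl_add n
  have h : 0 < 2 ^ (3 + n) := by positivity
  omega

theorem Ol_le_Gl (n : ℕ) : Ol n ≤ Gl n := by
  unfold Gl
  exact Nat.le_mul_of_pos_left _ (by positivity)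

theorem testBit_Gl {n t : ℕ} : (Gl n).testBit t = true ↔ ∃ i < n, t = q n i (n + 1) := by
  unfold Gl Ol
  rw [← mul_assoc, ← pow_add, Nat.testBit_two_pow_mul]
  simp only [Bool.and_eq_true, decide_eq_true_eq]
  rw [testBit_rep (by omega)]
  constructor
  · rintro ⟨h1, i, hi, h2⟩
    refine ⟨i, hi, ?_⟩
    unfold q; omega
  · rintro ⟨i, hi, h⟩
    unfold q at h
    refine ⟨by omega, i, hi, by omega⟩

/-! ### rows -/

/-- Row `i` of a lane value. -/
def row (n i X : ℕ) : ℕ := lane (n + 2) i (X / 2 ^ (3 + n))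

theorem testBit_row {n i X j : ℕ} (hj : j < n + 2) : (row n i X).testBit j = X.testBit (q n i j) := by
  unfold row q
  rw [testBit_lane, Nat.testBit_div_two_pow]
  simp only [hj, decide_true, Bool.true_and]
  congr 1; ring

theorem row_lt' {n i X : ℕ} (h : X.testBit (q n i (n + 1)) = false) : row n i X < 2 ^ (n + 1) := by
  apply Nat.lt_pow_two_of_testBit
  intro j hj
  by_cases hj2 : j = n + 1
  · subst hj2; rw [testBit_row (by omega)]; exact h
  · unfold row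
    rw [testBit_lane]
    simp; omega

/-- Adding the row masks: outer bound. -/
theorem add_MXl_lt {n FW Y : ℕ} (hY : Y < 2 ^ FW) (hr : q n n 0 ≤ FW)
    (hg : ∀ i < n, Y.testBit (q n i (n + 1)) = false) : Y + MXl n < 2 ^ FW := by
  -- split at 2 ^ (3+n) and at 2 ^ q
  set r := q n n 0 with hrdef
  have hlow : Y % 2 ^ r + MXl n < 2 ^ r := by
    set A := (Y % 2 ^ r) / 2 ^ (3 + n) with hA
    have hAlt : A < 2 ^ ((n + 2) * n) := by
      rw [hA, Nat.div_lt_iff_lt_mul (by positivity), ← pow_add]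
      have : (n + 2) * n + (3 + n) = r := by rw [hrdef]; unfold q; ring
      rw [this]; exact Nat.mod_lt _ (by positivity)
    have hAl : ∀ i < n, lane (n + 2) i A ≤ 2 ^ (n + 1) - 1 := by
      intro i hi
      have : row n i (Y % 2 ^ r) < 2 ^ (n + 1) := by
        apply row_lt'
        rw [Nat.testBit_mod_two_pow, hg i hi]; simp
      change lane (n + 2) i A < 2 ^ (n + 1) at this
      omega
    have h1 := le_rep_of_lanes hAlt hAl
    have h2 := rep_geom (n + 2) n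
    have e1 := Nat.div_add_mod (Y % 2 ^ r) (2 ^ (3 + n))
    have e2 : Y % 2 ^ r % 2 ^ (3 + n) < 2 ^ (3 + n) := Nat.mod_lt _ (by positivity)
    have hq : 2 ^ r = 2 ^ (3 + n) * 2 ^ ((n + 2) * n) := by rw [← pow_add]; congr 1
    have hp : 2 ^ (n + 2) = 2 * 2 ^ (n + 1) := by rw [pow_succ]; ring
    have h3 : 1 ≤ 2 ^ (n + 1) := Nat.one_le_two_pow
    unfold MXl Ol
    -- total ≤ 2^(3+n) * (2*(2^(n+1)-1)) * rep + (2^(3+n) - 1)
    have h4 : A + (2 ^ (n + 1) - 1) * rep (n + 2) n + 1 ≤ 2 ^ ((n + 2) * n) := by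
      have : 2 ^ (n + 2) - 1 = (2 ^ (n + 1) - 1) + (2 ^ (n + 1) - 1) + 1 := by omega
      rw [this] at h2
      nlinarith
    have h5 : Y % 2 ^ r = 2 ^ (3 + n) * A + Y % 2 ^ r % 2 ^ (3 + n) := e1.symm
    calc Y % 2 ^ r + (2 ^ (n + 1) - 1) * (2 ^ (3 + n) * rep (n + 2) n)
        = 2 ^ (3 + n) * (A + (2 ^ (n + 1) - 1) * rep (n + 2) n) + Y % 2 ^ r % 2 ^ (3 + n) := by
          rw [h5]; simp only [Nat.mul_add_mod, Nat.mod_mod]; ring
      _ < 2 ^ (3 + n) * (A + (2 ^ (n + 1) - 1) * rep (n + 2) n) + 2 ^ (3 + n) := by omega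
      _ = 2 ^ (3 + n) * (A + (2 ^ (n + 1) - 1) * rep (n + 2) n + 1) := by ring
      _ ≤ 2 ^ (3 + n) * 2 ^ ((n + 2) * n) := Nat.mul_le_mul_left _ h4
      _ = 2 ^ r := hq.symm
  have e := Nat.div_add_mod Y (2 ^ r)
  have hd : Y / 2 ^ r < 2 ^ (FW - r) := by
    rw [Nat.div_lt_iff_lt_mul (by positivity), ← pow_add]
    rwa [Nat.sub_add_cancel hr]
  calc Y + MXl n = 2 ^ r * (Y / 2 ^ r) + (Y % 2 ^ r + MXl n) := by omega
    _ < 2 ^ r * (Y / 2 ^ r) + 2 ^ r := by omega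
    _ = 2 ^ r * (Y / 2 ^ r + 1) := by ring
    _ ≤ 2 ^ r * 2 ^ (FW - r) := Nat.mul_le_mul_left _ hd
    _ = 2 ^ FW := by rw [← pow_add]; congr 1; omega

/-- Adding the row masks inside a lane: rows are added independently. -/
theorem row_add_MXl {n Y : ℕ} (hg : ∀ i < n, Y.testBit (q n i (n + 1)) = false) {i : ℕ} (hi : i < n) :
    row n i (Y + MXl n) = row n i Y + (2 ^ (n + 1) - 1) := by
  unfold row MXl Ol
  have : Y + (2 ^ (n + 1) - 1) * (2 ^ (3 + n) * rep (n + 2) n) =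
      Y + 2 ^ (3 + n) * ((2 ^ (n + 1) - 1) * rep (n + 2) n) := by ring
  rw [this, Nat.add_mul_div_left _ _ (by positivity)]
  have hp : 2 ^ (n + 2) = 2 * 2 ^ (n + 1) := by rw [pow_succ]; ring
  have h3 : 1 ≤ 2 ^ (n + 1) := Nat.one_le_two_pow
  have hc : 2 ^ (n + 1) - 1 < 2 ^ (n + 2) := by omega
  rw [lane_add]
  · rw [lane_rep_mul' hc, if_pos hi]
  · intro k
    rw [lane_rep_mul' hc]
    split_ifs with hk
    · have := row_lt' (hg k hk)
      unfold row at this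
      omega
    · have := lane_lt (n + 2) k (Y / 2 ^ (3 + n)); omega

/-- A row is nonzero iff the guard bit appears after adding the mask. -/
theorem guard_of_row {n Y : ℕ} (hg : ∀ i < n, Y.testBit (q n i (n + 1)) = false) {i : ℕ} (hi : i < n)
    (hne : row n i Y ≠ 0) : (Y + MXl n).testBit (q n i (n + 1)) = true := by
  rw [← testBit_row (by omega), row_add_MXl hg hi]
  have h1 := row_lt' (hg i hi)
  have h2 : 2 ^ (n + 1) ≤ row n i Y + (2 ^ (n + 1) - 1) := by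
    have h3 : 1 ≤ 2 ^ (n + 1) := Nat.one_le_two_pow
    omega
  have h3 : row n i Y + (2 ^ (n + 1) - 1) < 2 ^ (n + 1 + 1) := by
    rw [pow_succ 2 (n + 1)]; omega
  rw [Nat.testBit_eq_decide_div_mod_eq]
  simp only [decide_eq_true_eq]
  have : (row n i Y + (2 ^ (n + 1) - 1)) / 2 ^ (n + 1) = 1 := by
    rw [Nat.div_eq_iff (by positivity)]
    constructor
    · omega
    · rw [pow_succ 2 (n + 1)] at h3; omega
  rw [this]

end Pool.Agent.H57
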