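import Mathlib
import Pool.Agent.helper57.refl.Sound1

namespace Pool.Agent.H57
open Lane

variable {P : Par} {FW L f : ℕ}

namespace POK

theorem q_le_FW (h : POK P FW L f) : q P.n P.n 0 + P.n ≤ FW := by rw [← h.rp_eq]; exact h.FW_ge

theorem FW_pos (h : POK P FW L f) : 0 < FW := by
  have := h.q_le_FW; have := h.hn; omega

theorem pow_le (h : POK P FW L f) : 2 ^ (q P.n P.n 0) < 2 ^ FW :=
  Nat.pow_lt_pow_right (by norm_num) (by have := h.q_le_FW; have := h.hn; omega)

theorem lane_G (h : POK P FW L f) (k : ℕ) : lane FW k P.G = if k < L then Gl P.n else 0 := by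
  rw [h.G_eq]; exact lane_rep_mul' (lt_trans (Gl_lt _) h.pow_le) k

theorem lane_O (h : POK P FW L f) (k : ℕ) : lane FW k P.O = if k < L then Ol P.n else 0 := by
  rw [h.O_eq]; exact lane_rep_mul' (lt_trans (Ol_lt _) h.pow_le) k

theorem lane_MX (h : POK P FW L f) (k : ℕ) : lane FW k P.MX = if k < L then MXl P.n else 0 := by
  rw [h.MX_eq]; exact lane_rep_mul' (lt_trans (MXl_lt _) h.pow_le) k

theorem lane_MXFB (h : POK P FW L f) (k : ℕ) :
    lane FW k P.MXFB = if k < L then MXl P.n + 2 ^ (3 + P.n) else 0 := by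
  rw [h.MXFB_eq]
  refine lane_rep_mul' ?_ k
  have := Gl_add P.n; have := h.pow_le; omega

theorem lane_GB (h : POK P FW L f) (k : ℕ) : lane FW k P.GB = if k < L then 2 ^ P.n else 0 := by
  rw [h.GB_eq]
  refine lane_rep_mul' (Nat.pow_lt_pow_right (by norm_num) ?_) k
  have h1 := h.q_le_FW
  have h2 : P.n < q P.n P.n 0 := by unfold q; nlinarith
  omega

theorem lane_NR (h : POK P FW L f) (k : ℕ) : lane FW k P.NR = if k < L then 2 ^ P.rp - 1 else 0 := by
  rw [h.NR_eq]
  refine lane_rep_mul' ?_ k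
  have := h.pow_le; rw [← h.rp_eq] at this
  have h0 : 0 < 2 ^ P.rp := by positivity
  omega

theorem lane_REP (h : POK P FW L f) (k : ℕ) : lane FW k P.REP = if k < L then 1 else 0 := by
  rw [h.REP_eq]
  have := lane_rep_mul' (F := FW) (L := L) (c := 1) (Nat.one_lt_two_pow (by have := h.FW_pos; omega)) k
  rwa [one_mul] at this

theorem testBit_REP (h : POK P FW L f) {p : ℕ} : P.REP.testBit p = true ↔ ∃ k < L, p = FW * k := by
  rw [h.REP_eq]; exact testBit_rep h.FW_pos

theorem testBit_G (h : POK P FW L f) {p : ℕ} :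
    P.G.testBit p = true ↔ ∃ k < L, ∃ i < P.n, p = FW * k + q P.n i (P.n + 1) := by
  have hF := h.FW_pos
  constructor
  · intro hp
    have e := Nat.div_add_mod p FW
    have hm : p % FW < FW := Nat.mod_lt _ hF
    rw [← e, testBit_of_lane hm, h.lane_G] at hp
    split_ifs at hp with hk
    · obtain ⟨i, hi, hi2⟩ := testBit_Gl.mp hp
      exact ⟨p / FW, hk, i, hi, by omega⟩
    · simp at hp
  · rintro ⟨k, hk, i, hi, rfl⟩
    have hlt : q P.n i (P.n + 1) < FW := by
      have := h.q_le_FW
      have : q P.n i (P.n + 1) < q P.n P.n 0 := by unfold q; nlinarith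
      omega
    rw [testBit_of_lane hlt, h.lane_G, if_pos hk]
    exact testBit_Gl.mpr ⟨i, hi, rfl⟩

theorem q_guard_lt (h : POK P FW L f) {i : ℕ} (hi : i < P.n) {j : ℕ} (hj : j ≤ P.n + 1) :
    q P.n i j < q P.n P.n 0 := by unfold q; nlinarith

end POK

/-- All guard bits of all lanes are clear. -/
def Guard (P : Par) (FW L X : ℕ) : Prop := ∀ k < L, ∀ i < P.n, X.testBit (FW * k + q P.n i (P.n + 1)) = false

theorem guard_lane (h : POK P FW L f) {X : ℕ} (hg : Guard P FW L X) {k : ℕ} (hk : k < L) :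
    ∀ i < P.n, (lane FW k X).testBit (q P.n i (P.n + 1)) = false := by
  intro i hi
  have hlt : q P.n i (P.n + 1) < FW := by
    have := h.q_le_FW; have := h.q_guard_lt hi (le_refl (P.n + 1)); omega
  rw [← testBit_of_lane hlt]; exact hg k hk i hi

/-- No overflow between lanes when the row masks are added. -/
theorem lane_add_MX (h : POK P FW L f) {Y : ℕ} (hY : ∀ k, L ≤ k → lane FW k Y = 0) (hg : Guard P FW L Y) (k : ℕ) :
    lane FW k (Y + P.MX) = lane FW k Y + lane FW k P.MX := by
  apply lane_add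
  intro k
  rw [h.lane_MX]
  split_ifs with hk
  · apply add_MXl_lt (lane_lt _ _ _)
    · have := h.q_le_FW; omega
    · exact guard_lane h hg hk
  · rw [hY k (by omega)]; simp

theorem nzr_sub (P : Par) (Y : ℕ) {p : ℕ} (hp : (nzr P Y).testBit p = true) : P.G.testBit p = true := by
  have : nzr P Y = (Y + P.MX) &&& P.G := rfl
  rw [this, Nat.testBit_and, Bool.and_eq_true] at hp
  exact hp.2

theorem nzr_bit (h : POK P FW L f) {Y : ℕ} (hY : ∀ k, L ≤ k → lane FW k Y = 0) (hg : Guard P FW L Y) {k i : ℕ} (hk : k < L)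
    (hi : i < P.n) (hne : row P.n i (lane FW k Y) ≠ 0) :
    (nzr P Y).testBit (FW * k + q P.n i (P.n + 1)) = true := by
  have hlt : q P.n i (P.n + 1) < FW := by
    have := h.q_le_FW; have := h.q_guard_lt hi (le_refl (P.n + 1)); omega
  have e : nzr P Y = (Y + P.MX) &&& P.G := rfl
  rw [e, Nat.testBit_and, Bool.and_eq_true]
  refine ⟨?_, h.testBit_G.mpr ⟨k, hk, i, hi, rfl⟩⟩
  rw [testBit_of_lane hlt, lane_add_MX h hY hg, h.lane_MX, if_pos hk]
  exact guard_of_row (guard_lane h hg hk) hi hne

/-- The degree test: if every row of lane `w` has two different set bits then lane `w` survives. -/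
theorem okm_bit (h : POK P FW L f) {X : ℕ} (hX : X < 2 ^ (FW * L)) (hg : Guard P FW L X) {w : ℕ} (hw : w < L)
    (h2 : ∀ i < P.n, ∃ a b, a ≠ b ∧ a ≤ P.n ∧ b ≤ P.n ∧ X.testBit (FW * w + q P.n i a) = true ∧
      X.testBit (FW * w + q P.n i b) = true) : (okm P X).testBit (FW * w) = true := by
  set E := X &&& ((X ||| P.G) - P.O) with hE
  have e : okm P X = ((nzr P E + P.MXFB) >>> P.rp) &&& P.REP := rfl
  have hEX : ∀ p, E.testBit p = true → X.testBit p = true := by
    intro p hp; rw [hE, Nat.testBit_and, Bool.and_eq_true] at hp; exact hp.1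
  have hElt : E < 2 ^ (FW * L) := lt_of_le_of_lt Nat.and_le_left hX
  have hgE : Guard P FW L E := by
    intro k hk i hi
    by_contra hc
    rw [Bool.not_eq_false] at hc
    have := hEX _ hc
    rw [hg k hk i hi] at this; exact absurd this (by simp)
  have hsub : ∀ k, lane FW k ((X ||| P.G) - P.O) = lane FW k (X ||| P.G) - lane FW k P.O := by
    intro k
    apply lane_sub
    intro k
    rw [h.lane_O, lane_lor, h.lane_G]
    split_ifs with hk
    · exact le_trans (Ol_le_Gl _) Nat.right_le_or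
    · omega
  -- rows of E in lane w
  have hrow : ∀ i < P.n, row P.n i (lane FW w E) ≠ 0 := by
    intro i hi
    have h1 : lane FW w E = lane FW w X &&& ((lane FW w X ||| Gl P.n) - Ol P.n) := by
      rw [hE, lane_land, hsub, lane_lor, h.lane_G, h.lane_O, if_pos hw, if_pos hw]
    set x := row P.n i (lane FW w X) with hx
    have hgw := guard_lane h hg hw
    have hxlt : x < 2 ^ (P.n + 1) := row_lt' (hgw i hi)
    have h3 : row P.n i (lane FW w E) = x &&& ((x ||| 2 ^ (P.n + 1)) - 1) := by
      rw [h1]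
      unfold row
      rw [and_div, lane_land]
      congr 1
      have hOl : Ol P.n = 2 ^ (3 + P.n) * rep (P.n + 2) P.n := rfl
      have hd : ((lane FW w X ||| Gl P.n) - Ol P.n) / 2 ^ (3 + P.n) = (lane FW w X ||| Gl P.n) / 2 ^ (3 + P.n) - rep (P.n + 2) P.n := by
        rw [hOl]; exact Nat.sub_mul_div_of_le _ _ _ (by
          have : Ol P.n ≤ lane FW w X ||| Gl P.n := le_trans (Ol_le_Gl _) Nat.right_le_or
          rwa [hOl] at this)
      rw [hd, or_div]
      have hGd : Gl P.n / 2 ^ (3 + P.n) = 2 ^ (P.n + 1) * rep (P.n + 2) P.n := by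
        unfold Gl; rw [hOl]
        rw [show 2 ^ (P.n + 1) * (2 ^ (3 + P.n) * rep (P.n + 2) P.n) = 2 ^ (3 + P.n) * (2 ^ (P.n + 1) * rep (P.n + 2) P.n) by ring]
        exact Nat.mul_div_cancel_left _ (by positivity)
      rw [hGd]
      have hc : 2 ^ (P.n + 1) < 2 ^ (P.n + 2) := Nat.pow_lt_pow_right (by norm_num) (by omega)
      have hone : (1 : ℕ) < 2 ^ (P.n + 2) := Nat.one_lt_two_pow (by omega)
      have hrep : ∀ k, lane (P.n + 2) k (rep (P.n + 2) P.n) = if k < P.n then 1 else 0 := by
        intro k; have := lane_rep_mul' (F := P.n + 2) (L := P.n) (c := 1) hone k; rwa [one_mul] at this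
      rw [lane_sub]
      · rw [hrep, if_pos hi, lane_lor, lane_rep_mul' hc, if_pos hi]
        rfl
      · intro k
        rw [hrep, lane_lor, lane_rep_mul' hc]
        split_ifs with hk
        · exact le_trans (Nat.one_le_two_pow) Nat.right_le_or
        · omega
    rw [h3]
    obtain ⟨a, b, hab, ha, hb, hXa, hXb⟩ := h2 i hi
    apply two_bits hxlt hab
    · rw [hx, testBit_row (by omega)]
      rw [testBit_of_lane] at hXa
      · exact hXa
      · have := h.q_le_FW; have := h.q_guard_lt hi (show a ≤ P.n + 1 by omega); omega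
    · rw [hx, testBit_row (by omega)]
      rw [testBit_of_lane] at hXb
      · exact hXb
      · have := h.q_le_FW; have := h.q_guard_lt hi (show b ≤ P.n + 1 by omega); omega
  -- Z
  set Z := nzr P E with hZ
  have hZlane : ∀ k, lane FW k Z ≤ if k < L then Gl P.n else 0 := by
    intro k
    have : lane FW k Z = lane FW k (E + P.MX) &&& lane FW k P.G := by
      rw [← lane_land]; rfl
    rw [this, h.lane_G]
    exact Nat.and_le_right
  have hZw : lane FW w Z = Gl P.n := by
    apply le_antisymm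
    · have := hZlane w; rwa [if_pos hw] at this
    · -- every bit of Gl is a bit of lane w Z
      have hsubset : Gl P.n &&& lane FW w Z = Gl P.n := by
        apply Nat.eq_of_testBit_eq
        intro t
        rw [Nat.testBit_and]
        by_cases ht : (Gl P.n).testBit t = true
        · obtain ⟨i, hi, rfl⟩ := testBit_Gl.mp ht
          rw [ht, Bool.true_and]
          have hlt : q P.n i (P.n + 1) < FW := by
            have := h.q_le_FW; have := h.q_guard_lt hi (le_refl (P.n + 1)); omega
          rw [← testBit_of_lane hlt]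
          exact nzr_bit h (fun k hk => lane_of_lt hElt hk) hgE hw hi (hrow i hi)
        · rw [Bool.not_eq_true] at ht; rw [ht]; simp
      calc Gl P.n = Gl P.n &&& lane FW w Z := hsubset.symm
        _ ≤ lane FW w Z := Nat.and_le_right
  have hsum : ∀ k, lane FW k (Z + P.MXFB) = lane FW k Z + lane FW k P.MXFB := by
    intro k
    apply lane_add
    intro k
    rw [h.lane_MXFB]
    have := hZlane k
    have e1 := Gl_add P.n
    have e2 := h.pow_le
    split_ifs at this ⊢ with hk
    · omega
    · have : 0 < 2 ^ FW := by positivity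
      omega
  rw [e, Nat.testBit_and, Bool.and_eq_true]
  constructor
  · rw [Nat.testBit_shiftRight, h.rp_eq]
    have hlt : q P.n P.n 0 < FW := by have := h.q_le_FW; have := h.hn; omega
    rw [show q P.n P.n 0 + FW * w = FW * w + q P.n P.n 0 by ring, testBit_of_lane hlt, hsum, hZw, h.lane_MXFB,
      if_pos hw, Gl_add]
    simp
  · exact h.testBit_REP.mpr ⟨w, hw, rfl⟩

theorem okm_sub (P : Par) (X : ℕ) {p : ℕ} (hp : (okm P X).testBit p = true) : P.REP.testBit p = true := by
  have : okm P X = ((nzr P (X &&& ((X ||| P.G) - P.O)) + P.MXFB) >>> P.rp) &&& P.REP := rfl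
  rw [this, Nat.testBit_and, Bool.and_eq_true] at hp
  exact hp.2

/-- Spreading the bits of a small number to the lane bases. -/
theorem spread_bit (h : POK P FW L f) {y : ℕ} (hy : y < 2 ^ P.n) {k : ℕ} (hk : k < L) :
    (y * P.KF).testBit (FW * k) = y.testBit k := by
  have hF := h.FW_pos
  have hq := h.q_le_FW
  have hn := h.hn
  have hF1 : P.n ≤ FW - 1 := by
    unfold q at hq; nlinarith [Nat.sub_add_cancel hF]
  have hyb : ∀ a, y.testBit a = true → a < P.n := by
    intro a ha
    by_contra hc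
    rw [Nat.testBit_lt_two_pow (lt_of_lt_of_le hy (Nat.pow_le_pow_right (by norm_num) (by omega)))] at ha
    exact absurd ha (by simp)
  have hkf : ∀ b, P.KF.testBit b = true ↔ ∃ k < L, b = (FW - 1) * k := by
    intro b; rw [h.KF_eq]; exact testBit_rep (by omega)
  have inj : ∀ a k1 a' k2, a < P.n → a' < P.n → a + (FW - 1) * k1 = a' + (FW - 1) * k2 → a = a' ∧ k1 = k2 := by
    intro a k1 a' k2 ha ha' he
    have hm : 0 < FW - 1 := by omega
    have e1 : (a + (FW - 1) * k1) / (FW - 1) = k1 := by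
      rw [Nat.add_mul_div_left _ _ hm, Nat.div_eq_of_lt (by omega), zero_add]
    have e2 : (a' + (FW - 1) * k2) / (FW - 1) = k2 := by
      rw [Nat.add_mul_div_left _ _ hm, Nat.div_eq_of_lt (by omega), zero_add]
    have : k1 = k2 := by rw [← e1, ← e2, he]
    subst this
    exact ⟨by omega, rfl⟩
  have key := testBit_mul_of_inj (x := y) (y := P.KF) (by
    intro a b a' b' ha hb ha' hb' he
    obtain ⟨k1, _, rfl⟩ := (hkf b).mp hb
    obtain ⟨k2, _, rfl⟩ := (hkf b').mp hb'
    obtain ⟨h1, h2⟩ := inj a k1 a' k2 (hyb a ha) (hyb a' ha') he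
    exact ⟨h1, by rw [h2]⟩) (FW * k)
  have hkk : FW * k = k + (FW - 1) * k := by
    calc FW * k = ((FW - 1) + 1) * k := by rw [Nat.sub_add_cancel hF]
      _ = k + (FW - 1) * k := by ring
  by_cases hyk : y.testBit k = true
  · rw [hyk]
    exact key.mpr ⟨k, (FW - 1) * k, hkk.symm, hyk, (hkf _).mpr ⟨k, hk, rfl⟩⟩
  · rw [Bool.not_eq_true] at hyk
    rw [hyk]
    by_contra hc
    rw [Bool.not_eq_false] at hc
    obtain ⟨a, b, hab, ha, hb⟩ := key.mp hc
    obtain ⟨k2, _, rfl⟩ := (hkf b).mp hb
    have hkn : k < P.n := lt_of_lt_of_le hk h.L_le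
    obtain ⟨h1, h2⟩ := inj a k2 k k (hyb a ha) hkn (by rw [hab, hkk])
    subst h1
    rw [hyk] at ha; exact absurd ha (by simp)

end Pool.Agent.H57
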