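import Mathlib
import Pool.Agent.helper57.refl.Sound2
import Pool.Agent.helper57.refl.Defs

namespace Pool.Agent.H57
open Lane Refl

variable {P : Par} {FW L f : ℕ}

/-- Only the `n` lowest bits of the first `L` lanes are used. -/
def Low (P : Par) (FW L c : ℕ) : Prop := ∀ p, c.testBit p = true → ∃ k < L, ∃ i < P.n, p = FW * k + i

def Sub (a b : ℕ) : Prop := ∀ p, a.testBit p = true → b.testBit p = true

theorem Low.lane_lt (h : POK P FW L f) {c : ℕ} (hc : Low P FW L c) (k : ℕ) : lane FW k c < 2 ^ P.n := by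
  apply Nat.lt_pow_two_of_testBit
  intro j hj
  rw [testBit_lane]
  by_cases hjF : j < FW
  · simp only [hjF, decide_true, Bool.true_and]
    by_contra hcon
    rw [Bool.not_eq_false] at hcon
    obtain ⟨k', _, i, hi, he⟩ := hc _ hcon
    have hq := h.q_le_FW
    have h1 : (FW * k + j) % FW = j := by rw [Nat.mul_add_mod, Nat.mod_eq_of_lt hjF]
    have h2 : (FW * k' + i) % FW = i := by
      rw [Nat.mul_add_mod, Nat.mod_eq_of_lt (by omega)]
    rw [he, h2] at h1
    omega
  · simp [hjF]

theorem Low.lane_zero (h : POK P FW L f) {c : ℕ} (hc : Low P FW L c) {k : ℕ} (hk : L ≤ k) : lane FW k c = 0 := by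
  apply Nat.eq_of_testBit_eq
  intro j
  rw [testBit_lane, Nat.zero_testBit]
  by_cases hjF : j < FW
  · simp only [hjF, decide_true, Bool.true_and]
    by_contra hcon
    rw [Bool.not_eq_false] at hcon
    obtain ⟨k', hk', i, hi, he⟩ := hc _ hcon
    have hq := h.q_le_FW
    have hF := h.FW_pos
    have h1 : (FW * k + j) / FW = k := by rw [Nat.mul_add_div hF, Nat.div_eq_of_lt hjF, add_zero]
    have h2 : (FW * k' + i) / FW = k' := by
      rw [Nat.mul_add_div hF, Nat.div_eq_of_lt (by omega), add_zero]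
    rw [he, h2] at h1
    omega
  · simp [hjF]

theorem row_mul_Ol {n i c : ℕ} (hc : c < 2 ^ n) (hi : i < n) : row n i (c * Ol n) = c := by
  unfold row Ol
  rw [show c * (2 ^ (3 + n) * rep (n + 2) n) = 2 ^ (3 + n) * (c * rep (n + 2) n) by ring,
    Nat.mul_div_cancel_left _ (by positivity), lane_rep_mul' (lt_of_lt_of_le hc (Nat.pow_le_pow_right (by norm_num) (by omega))),
    if_pos hi]

/-- The breadth-first step adds the neighbours. -/
theorem step_bit (h : POK P FW L f) {AA UB c : ℕ} (hc : Low P FW L c) {k i j : ℕ} (hk : k < L) (hi : i < P.n)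
    (hj : j < P.n) (hcj : c.testBit (FW * k + j) = true) (hA : AA.testBit (FW * k + q P.n i j) = true)
    (hU : UB.testBit (FW * k + i) = true) : (stepc P AA UB c).testBit (FW * k + i) = true := by
  have hF := h.FW_pos
  have hq := h.q_le_FW
  set Y := (c * P.RB) &&& AA with hY
  have e : stepc P AA UB c = ((nzr P Y * P.Kn) >>> P.sh) &&& UB := rfl
  have hprod : ∀ k, lane FW k c * Ol P.n < 2 ^ FW := by
    intro k
    have h1 := hc.lane_lt h k
    have h2 := Ol_lt P.n
    calc lane FW k c * Ol P.n < 2 ^ P.n * 2 ^ (q P.n P.n 0) := by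
          apply Nat.mul_lt_mul'' h1 h2
      _ = 2 ^ (q P.n P.n 0 + P.n) := by rw [← pow_add, add_comm]
      _ ≤ 2 ^ FW := Nat.pow_le_pow_right (by norm_num) hq
  have hlY : ∀ k, lane FW k Y = (lane FW k c * Ol P.n) &&& lane FW k AA := by
    intro k
    rw [hY, lane_land, h.RB_eq, lane_mul hprod]
  have hYz : ∀ k, L ≤ k → lane FW k Y = 0 := by
    intro k hk
    rw [hlY, hc.lane_zero h hk]; simp
  have hgY : Guard P FW L Y := by
    intro k hk i hi
    have hlt : q P.n i (P.n + 1) < FW := by
      have := h.q_guard_lt hi (le_refl (P.n + 1)); omega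
    rw [testBit_of_lane hlt, hlY, Nat.testBit_and]
    have : (lane FW k c * Ol P.n).testBit (q P.n i (P.n + 1)) = false := by
      rw [← testBit_row (by omega), row_mul_Ol (hc.lane_lt h k) hi]
      exact Nat.testBit_lt_two_pow (lt_of_lt_of_le (hc.lane_lt h k) (Nat.pow_le_pow_right (by norm_num) (by omega)))
    rw [this]; simp
  have hnz : row P.n i (lane FW k Y) ≠ 0 := by
    intro h0
    have hb : (row P.n i (lane FW k Y)).testBit j = true := by
      rw [testBit_row (by omega), hlY, Nat.testBit_and, Bool.and_eq_true]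
      constructor
      · rw [← testBit_row (by omega), row_mul_Ol (hc.lane_lt h k) hi, testBit_lane]
        simp only [hcj, Bool.and_true, decide_eq_true_eq]
        omega
      · rw [testBit_lane, hA]
        simp only [Bool.and_true, decide_eq_true_eq]
        have := h.q_guard_lt hi (show j ≤ P.n + 1 by omega); omega
    rw [h0] at hb; simp at hb
  have hZ := nzr_bit h hYz hgY hk hi hnz
  rw [e, Nat.testBit_and, hU, Bool.and_true, Nat.testBit_shiftRight, h.sh_eq]
  rw [testBit_mul_of_inj]
  · refine ⟨FW * k + q P.n i (P.n + 1), (P.n + 1) * (P.n - 1 - i), ?_, hZ, ?_⟩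
    · unfold q
      have : P.n = i + 1 + (P.n - 1 - i) := by omega
      generalize P.n - 1 - i = r at this ⊢
      rw [this]; ring
    · rw [h.Kn_eq, testBit_rep (by omega)]
      exact ⟨P.n - 1 - i, by omega, rfl⟩
  · intro a b a' b' ha hb ha' hb' he
    have ha2 := nzr_sub P Y ha
    have ha2' := nzr_sub P Y ha'
    obtain ⟨k1, hk1, i1, hi1, rfl⟩ := h.testBit_G.mp ha2
    obtain ⟨k2, hk2, i2, hi2, rfl⟩ := h.testBit_G.mp ha2'
    rw [h.Kn_eq, testBit_rep (by omega)] at hb hb'
    obtain ⟨j1, hj1, rfl⟩ := hb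
    obtain ⟨j2, hj2, rfl⟩ := hb'
    have hm : 0 < P.n + 1 := by omega
    have e1 : FW * k1 + q P.n i1 (P.n + 1) + (P.n + 1) * j1 = (3 + P.n) + (i1 + (P.n + 1) * (f * k1 + i1 + 1 + j1)) := by
      rw [h.FW_eq]; unfold q; ring
    have e2 : FW * k2 + q P.n i2 (P.n + 1) + (P.n + 1) * j2 = (3 + P.n) + (i2 + (P.n + 1) * (f * k2 + i2 + 1 + j2)) := by
      rw [h.FW_eq]; unfold q; ring
    rw [e1, e2] at he
    have he2 : i1 + (P.n + 1) * (f * k1 + i1 + 1 + j1) = i2 + (P.n + 1) * (f * k2 + i2 + 1 + j2) := by omega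
    have hmod := congrArg (· % (P.n + 1)) he2
    simp only [Nat.add_mul_mod_self_left] at hmod
    rw [Nat.mod_eq_of_lt (by omega), Nat.mod_eq_of_lt (by omega)] at hmod
    subst hmod
    have he3 : f * k1 + i1 + 1 + j1 = f * k2 + i1 + 1 + j2 :=
      Nat.eq_of_mul_eq_mul_left hm (by omega)
    have he4 : j1 + f * k1 = j2 + f * k2 := by omega
    have hf : 0 < f := by have := h.f_ge; have := h.hn; omega
    have hmod2 := congrArg (· % f) he4
    simp only [Nat.add_mul_mod_self_left] at hmod2
    have := h.f_ge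
    rw [Nat.mod_eq_of_lt (by omega), Nat.mod_eq_of_lt (by omega)] at hmod2
    subst hmod2
    have : k1 = k2 := Nat.eq_of_mul_eq_mul_left hf (by omega)
    subst this
    exact ⟨rfl, rfl⟩

theorem step_sub (P : Par) (AA UB c : ℕ) : Sub (stepc P AA UB c) UB := by
  intro p hp
  have e : stepc P AA UB c = ((nzr P ((c * P.RB) &&& AA) * P.Kn) >>> P.sh) &&& UB := rfl
  rw [e, Nat.testBit_and, Bool.and_eq_true] at hp
  exact hp.2

theorem bfs_spec (h : POK P FW L f) {AA UB : ℕ} (hU : Low P FW L UB)
    (hd : ∀ k < L, ∀ i < P.n, AA.testBit (FW * k + q P.n i i) = true) (t : ℕ) :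
    ∀ c, Sub c UB → bfs P AA UB t c = UB ∨
      (Sub c (bfs P AA UB t c) ∧ Sub (bfs P AA UB t c) UB ∧ stepc P AA UB (bfs P AA UB t c) = bfs P AA UB t c) := by
  induction t with
  | zero => intro c _; left; rfl
  | succ t ih =>
    intro c hc
    have hcl : Low P FW L c := fun p hp => hU p (hc p hp)
    have e : bfs P AA UB (t + 1) c = bfsStep c (bfs P AA UB t) (stepc P AA UB c) := rfl
    have hcc : Sub c (stepc P AA UB c) := by
      intro p hp
      obtain ⟨k, hk, i, hi, rfl⟩ := hcl p hp
      exact step_bit h hcl hk hi hi hp (hd k hk i hi) (hc _ hp)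
    rw [e]
    unfold bfsStep
    by_cases hb : Nat.beq (stepc P AA UB c) c = true
    · rw [hb]
      right
      have := Nat.eq_of_beq_eq_true hb
      exact ⟨fun p hp => hp, hc, this⟩
    · rw [Bool.not_eq_true] at hb
      rw [hb]
      rcases ih _ (step_sub P AA UB c) with h1 | ⟨h1, h2, h3⟩
      · left; exact h1
      · right
        exact ⟨fun p hp => h1 p (hcc p hp), h2, h3⟩

/-- Membership is constant along a list if it is constant along consecutive pairs. -/
theorem const_of_pairs {p : ℕ → Prop} : ∀ l : List ℕ, (∀ e ∈ pairs l, (p e.1 ↔ p e.2)) → ∀ x ∈ l, ∀ y ∈ l, (p x ↔ p y)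
  | [], _ => by simp
  | [a], _ => by intro x hx y hy; simp at hx hy; subst hx; subst hy; rfl
  | a :: b :: t, hl => by
    have h1 : p a ↔ p b := hl (a, b) (by simp [pairs])
    have ih := const_of_pairs (b :: t) (fun e he => hl e (by simp only [pairs, List.mem_cons]; right; exact he))
    have hall : ∀ x ∈ a :: b :: t, (p x ↔ p b) := by
      intro x hx
      rcases List.mem_cons.mp hx with rfl | hx
      · exact h1
      · exact ih x hx b (by simp)
    intro x hx y hy
    exact (hall x hx).trans (hall y hy).symm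

/-- In a lane whose unvisited vertices are connected by a path, the search reaches everything. -/
theorem bfs_full (h : POK P FW L f) {AA UB : ℕ} (hU : Low P FW L UB)
    (hd : ∀ k < L, ∀ i < P.n, AA.testBit (FW * k + q P.n i i) = true) {t c : ℕ} (hc : Sub c UB) {w : ℕ} (hw : w < L)
    {l : List ℕ} (hl : ∀ i < P.n, (UB.testBit (FW * w + i) = true ↔ i ∈ l)) (hln : ∀ i ∈ l, i < P.n)
    (hA : ∀ e ∈ pairs l, AA.testBit (FW * w + q P.n e.1 e.2) = true ∧ AA.testBit (FW * w + q P.n e.2 e.1) = true)
    (hmem : ∀ e ∈ pairs l, e.1 ∈ l ∧ e.2 ∈ l)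
    (hne : ∃ i < P.n, c.testBit (FW * w + i) = true) :
    lane FW w (bfs P AA UB t c ^^^ UB) = 0 := by
  have key : ∀ i < P.n, (bfs P AA UB t c).testBit (FW * w + i) = UB.testBit (FW * w + i) := by
    rcases bfs_spec h hU hd t c hc with h1 | ⟨h1, h2, h3⟩
    · intro i _; rw [h1]
    · set r := bfs P AA UB t c with hr
      have hrl : Low P FW L r := fun p hp => hU p (h2 p hp)
      have hcl : ∀ a ∈ l, ∀ b ∈ l, AA.testBit (FW * w + q P.n b a) = true → r.testBit (FW * w + a) = true →
          r.testBit (FW * w + b) = true := by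
        intro a ha b hb hab hra
        have := step_bit h hrl hw (hln b hb) (hln a ha) hra hab ((hl b (hln b hb)).mpr hb)
        rwa [h3] at this
      have hconst := const_of_pairs (p := fun a => r.testBit (FW * w + a) = true) l (by
        intro e he
        obtain ⟨m1, m2⟩ := hmem e he
        obtain ⟨a1, a2⟩ := hA e he
        exact ⟨hcl _ m1 _ m2 a2, hcl _ m2 _ m1 a1⟩)
      obtain ⟨i0, hi0, hc0⟩ := hne
      have hr0 := h1 _ hc0
      have hi0l : i0 ∈ l := (hl i0 hi0).mp (h2 _ hr0)
      intro i hi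
      by_cases hil : i ∈ l
      · rw [(hl i hi).mpr hil]
        exact (hconst i0 hi0l i hil).mp hr0
      · have hu : UB.testBit (FW * w + i) = false := by
          by_contra hcon; rw [Bool.not_eq_false] at hcon; exact hil ((hl i hi).mp hcon)
        rw [hu]
        by_contra hcon; rw [Bool.not_eq_false] at hcon
        have := h2 _ hcon
        rw [hu] at this; exact absurd this (by simp)
  have hlow : ∀ x, Sub x UB → ∀ j, P.n ≤ j → (lane FW w x).testBit j = false := by
    intro x hx j hj
    have hxl : Low P FW L x := fun p hp => hU p (hx p hp)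
    exact Nat.testBit_lt_two_pow (lt_of_lt_of_le (hxl.lane_lt h w) (Nat.pow_le_pow_right (by norm_num) hj))
  have hrU : Sub (bfs P AA UB t c) UB := by
    rcases bfs_spec h hU hd t c hc with h1 | ⟨_, h2, _⟩
    · rw [h1]; exact fun p hp => hp
    · exact h2
  have hq := h.q_le_FW
  apply Nat.eq_of_testBit_eq
  intro j
  rw [lane_xor, Nat.testBit_xor, Nat.zero_testBit]
  by_cases hj : j < P.n
  · rw [testBit_lane, testBit_lane, key j hj]; simp
  · rw [hlow _ hrU j (by omega), hlow UB (fun p hp => hp) j (by omega)]; rfl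

end Pool.Agent.H57
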