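import Mathlib
import Pool.Agent.helper57.refl.Sound3

namespace Pool.Agent.H57
open Lane Refl

/-- Specification of the tables. -/
structure TOK (P : Par) (FW L s : ℕ) (cross : ℕ → ℕ → ℕ → ℕ → Bool) (good : ℕ → ℕ → ℕ → Bool) (T D RS : ℕ → ℕ) :
    Prop where
  T_lt : ∀ v < P.n, v ≠ s → T v < 2 ^ (FW * L)
  D_lt : ∀ v < P.n, v ≠ s → D v < 2 ^ (FW * L)
  T_b : ∀ v < P.n, v ≠ s → ∀ k < L, ∀ t < 3, (T v).testBit (FW * k + t) = true
  D_lo : ∀ v < P.n, v ≠ s → ∀ k < L, ∀ t < 3 + P.n, (D v).testBit (FW * k + t) = false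
  D_guard : ∀ v < P.n, v ≠ s → ∀ k < L, ∀ i < P.n, (D v).testBit (FW * k + q P.n i (P.n + 1)) = false
  D_hi : ∀ v < P.n, v ≠ s → ∀ k < L, ∀ t, P.rp + P.n ≤ t → t < FW → (D v).testBit (FW * k + t) = false
  T_hi : ∀ v < P.n, v ≠ s → ∀ k < L, ∀ t, P.rp ≤ t → t < FW → (T v).testBit (FW * k + t) = false
  T_U : ∀ v < P.n, v ≠ s → ∀ w < L, w ≠ v → w ≠ s → ∀ i < P.n, (T v).testBit (FW * w + (3 + i)) = decide (i ≠ w)
  T_edge : ∀ v < P.n, v ≠ s → ∀ w < L, w ≠ v → w ≠ s → ∀ i < P.n, ∀ j < P.n, i ≠ j → i ≠ v → j ≠ v →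
    ¬ (i = w ∧ j = s) → ¬ (i = s ∧ j = w) → (i = w ∨ j = w ∨ cross v w i j = false ∨ cross v w j i = false) →
    (T v).testBit (FW * w + q P.n i j) = true
  T_diag : ∀ v < P.n, v ≠ s → ∀ w < L, w ≠ v → w ≠ s → ∀ i < P.n, (T v).testBit (FW * w + q P.n i i) = true
  T_flag : ∀ v < P.n, v ≠ s → ∀ w < L, w ≠ v → w ≠ s → ∀ i < P.n, (T v).testBit (FW * w + q P.n i P.n) = true
  D_flag : ∀ v < P.n, v ≠ s → ∀ w < L, w ≠ v → w ≠ s → (D v).testBit (FW * w + q P.n v P.n) = true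
  D_diag : ∀ v < P.n, v ≠ s → ∀ w < L, w ≠ v → w ≠ s → (D v).testBit (FW * w + q P.n w w) = true
  D_R : ∀ v < P.n, v ≠ s → ∀ w < L, w ≠ v → w ≠ s → ∀ x < P.n, (D v).testBit (FW * w + (P.rp + x)) = true →
    good v w x = true
  RS_bit : ∀ v < P.n, v ≠ s → ∀ x < P.n, (RS v).testBit x = true → good v x s = true

/-- A completion `u :: t` of the path that currently ends at `v`. -/
structure Comp (P : Par) (s : ℕ) (cross : ℕ → ℕ → ℕ → ℕ → Bool) (good : ℕ → ℕ → ℕ → Bool) (v S u : ℕ)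
    (t : List ℕ) : Prop where
  nodup : (v :: u :: t).Nodup
  s_not : s ∉ v :: u :: t
  mem : ∀ i < P.n, (S.testBit (3 + i) = true ↔ i ∈ u :: t)
  lt : ∀ i ∈ u :: t, i < P.n
  edges : ∀ e ∈ pairs (v :: u :: (t ++ [s])), S.testBit (q P.n e.1 e.2) = true ∧ S.testBit (q P.n e.2 e.1) = true
  nocross : ∀ e ∈ pairs (v :: u :: (t ++ [s])), ∀ g ∈ pairs (v :: u :: (t ++ [s])), e.1 ≠ g.1 → e.1 ≠ g.2 →
    e.2 ≠ g.1 → e.2 ≠ g.2 → cross e.1 e.2 g.1 g.2 = false
  turns : (if S.testBit (P.rp + u) = true then 1 else 0) +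
    (triples (v :: u :: (t ++ [s]))).countP (fun z => good z.1 z.2.1 z.2.2) ≤ S % 8

structure Inv (P : Par) (s v S : ℕ) : Prop where
  lt : S < 2 ^ (P.rp + P.n)
  guard : ∀ i < P.n, S.testBit (q P.n i (P.n + 1)) = false
  diagv : S.testBit (q P.n v v) = true
  diags : S.testBit (q P.n s s) = true
  cover : ∀ i < P.n, i ≠ v → i ≠ s → S.testBit (3 + i) = true ∨
    (S.testBit (q P.n i i) = true ∧ S.testBit (q P.n i P.n) = true)

variable {P : Par} {FW L f s : ℕ} {cross : ℕ → ℕ → ℕ → ℕ → Bool} {good : ℕ → ℕ → ℕ → Bool} {T D RS : ℕ → ℕ}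

/-- The lanes of the children. -/
def TXv (P : Par) (T D S : ℕ) : ℕ := ((S * P.REP) &&& T) ||| D

theorem TXv_lt (h : TOK P FW L s cross good T D RS) {v S : ℕ} (hv : v < P.n) (hvs : v ≠ s) :
    TXv P (T v) (D v) S < 2 ^ (FW * L) := by
  unfold TXv
  exact Nat.or_lt_two_pow (lt_of_le_of_lt Nat.and_le_right (h.T_lt v hv hvs)) (h.D_lt v hv hvs)

theorem TXv_bit (hp : POK P FW L f) {Tv Dv S : ℕ} (hS : S < 2 ^ FW) {k t : ℕ} (hk : k < L) (ht : t < FW) :
    (TXv P Tv Dv S).testBit (FW * k + t) =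
      ((S.testBit t && Tv.testBit (FW * k + t)) || Dv.testBit (FW * k + t)) := by
  unfold TXv
  rw [Nat.testBit_or, Nat.testBit_and]
  congr 2
  rw [testBit_of_lane ht, hp.REP_eq, lane_mul_rep hS, if_pos hk]

theorem Inv.lt_FW (hp : POK P FW L f) {v S : ℕ} (hI : Inv P s v S) : S < 2 ^ FW :=
  lt_of_lt_of_le hI.lt (Nat.pow_le_pow_right (by norm_num) hp.FW_ge)

theorem TXv_guard (hp : POK P FW L f) (h : TOK P FW L s cross good T D RS) {v S : ℕ} (hv : v < P.n) (hvs : v ≠ s)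
    (hI : Inv P s v S) : Guard P FW L (TXv P (T v) (D v) S) := by
  intro k hk i hi
  have hlt : q P.n i (P.n + 1) < FW := by
    have := hp.q_le_FW; have := hp.q_guard_lt hi (le_refl (P.n + 1)); omega
  rw [TXv_bit hp (hI.lt_FW hp) hk hlt, hI.guard i hi, h.D_guard v hv hvs k hk i hi]; rfl

theorem mem_pairs_cons_cons {a b : ℕ} {t : List ℕ} {e : ℕ × ℕ} :
    e ∈ pairs (a :: b :: t) ↔ e = (a, b) ∨ e ∈ pairs (b :: t) := by
  simp [pairs]

/-- Every element of a path `a :: l ++ [z]` strictly inside has a predecessor and a successor edge. -/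
theorem exists_two_edges : ∀ (l : List ℕ) (a z i : ℕ), i ∈ l → ∃ x y, (x, i) ∈ pairs (a :: (l ++ [z])) ∧
    (i, y) ∈ pairs (a :: (l ++ [z])) ∧ ((a :: l ++ [z]).Nodup → x ≠ y)
  | [], _, _, _, h => by simp at h
  | b :: l, a, z, i, h => by
    rcases List.mem_cons.mp h with rfl | h'
    · cases l with
      | nil =>
        refine ⟨a, z, by simp [pairs], by simp [pairs], ?_⟩
        intro hnd heq; subst heq; simp at hnd
      | cons c l =>
        refine ⟨a, c, by simp [pairs], by simp [pairs], ?_⟩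
        intro hnd heq; subst heq; simp at hnd
    · obtain ⟨x, y, h1, h2, h3⟩ := exists_two_edges l b z i h'
      refine ⟨x, y, ?_, ?_, ?_⟩
      · rw [List.cons_append, mem_pairs_cons_cons]; right; exact h1
      · rw [List.cons_append, mem_pairs_cons_cons]; right; exact h2
      · intro hnd; apply h3
        have : (a :: (b :: l) ++ [z]) = a :: (b :: l ++ [z]) := rfl
        rw [this] at hnd
        exact (List.nodup_cons.mp hnd).2

/-- The last edge of the path. -/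
theorem exists_last_edge : ∀ (l : List ℕ) (a z : ℕ), ∃ x ∈ a :: l, (x, z) ∈ pairs (a :: (l ++ [z]))
  | [], a, z => ⟨a, by simp, by simp [pairs]⟩
  | b :: l, a, z => by
    obtain ⟨x, hx, h⟩ := exists_last_edge l b z
    exact ⟨x, by simp only [List.mem_cons] at hx ⊢; right; exact hx, by
      rw [List.cons_append, mem_pairs_cons_cons]; right; exact h⟩

theorem mem_of_mem_pairs : ∀ (l : List ℕ) (e : ℕ × ℕ), e ∈ pairs l → e.1 ∈ l ∧ e.2 ∈ l
  | [], e, h => by simp [pairs] at h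
  | [a], e, h => by simp [pairs] at h
  | a :: b :: t, e, h => by
    rcases mem_pairs_cons_cons.mp h with rfl | h'
    · simp
    · have := mem_of_mem_pairs (b :: t) e h'
      exact ⟨List.mem_cons_of_mem _ this.1, List.mem_cons_of_mem _ this.2⟩

theorem ne_of_mem_pairs : ∀ (l : List ℕ) (e : ℕ × ℕ), l.Nodup → e ∈ pairs l → e.1 ≠ e.2
  | [], e, _, h => by simp [pairs] at h
  | [a], e, _, h => by simp [pairs] at h
  | a :: b :: t, e, hnd, h => by
    rcases mem_pairs_cons_cons.mp h with rfl | h'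
    · intro he; simp at he; subst he; simp at hnd
    · exact ne_of_mem_pairs (b :: t) e (List.nodup_cons.mp hnd).2 h'

/-- In a path without repetitions whose last vertex is `z` and that continues after `a :: b`, the pair `(a, z)` is not
an edge. -/
theorem pair_ne_last {a b z : ℕ} {t : List ℕ} (hnd : (a :: b :: (t ++ [z])).Nodup) {e : ℕ × ℕ}
    (he : e ∈ pairs (a :: b :: (t ++ [z]))) : ¬ (e.1 = a ∧ e.2 = z) ∧ ¬ (e.1 = z ∧ e.2 = a) := by
  have haz : a ≠ z := by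
    rintro rfl
    have := (List.nodup_cons.mp hnd).1
    exact this (by simp)
  have hbz : b ≠ z := by
    rintro rfl
    have := (List.nodup_cons.mp (List.nodup_cons.mp hnd).2).1
    exact this (by simp)
  have ha : a ∉ b :: (t ++ [z]) := (List.nodup_cons.mp hnd).1
  rcases mem_pairs_cons_cons.mp he with rfl | h'
  · exact ⟨fun h => hbz h.2, fun h => haz h.1⟩
  · have := mem_of_mem_pairs _ _ h'
    exact ⟨fun h => ha (h.1 ▸ this.1), fun h => ha (h.2 ▸ this.2)⟩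

theorem sub_pairs {v u : ℕ} {t : List ℕ} {e : ℕ × ℕ} (h : e ∈ pairs (u :: t)) : e ∈ pairs (v :: u :: t) :=
  mem_pairs_cons_cons.mpr (Or.inr h)

end Pool.Agent.H57
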