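import Mathlib
import Pool.Agent.helper57.refl.Sound4

namespace Pool.Agent.H57
open Lane Refl

variable {P : Par} {FW L f s : ℕ} {cross : ℕ → ℕ → ℕ → ℕ → Bool} {good : ℕ → ℕ → ℕ → Bool} {T D RS : ℕ → ℕ}

theorem q_lt_rp (hp : POK P FW L f) {i j : ℕ} (hi : i < P.n) (hj : j ≤ P.n + 1) : q P.n i j < P.rp := by
  rw [hp.rp_eq]; exact hp.q_guard_lt hi hj

theorem three_le_q (n i j : ℕ) : 3 ≤ q n i j := by unfold q; omega

theorem q_lt_FW (hp : POK P FW L f) {i j : ℕ} (hi : i < P.n) (hj : j ≤ P.n + 1) : q P.n i j < FW := by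
  have := q_lt_rp hp hi hj; have := hp.FW_ge; omega

theorem low_lt_rp (hp : POK P FW L f) {i : ℕ} (hi : i < P.n) : 3 + i < P.rp := by
  rw [hp.rp_eq]; unfold q; omega

section
variable (hp : POK P FW L f) (h : TOK P FW L s cross good T D RS) (hs : s < P.n) (hL : ∀ u < P.n, u ≠ s → u < L)
include hp h hs hL

/-- Edges of the remaining path are available in the child's lane. -/
theorem TX_edges {v S u u' : ℕ} {t : List ℕ} (hv : v < P.n) (hvs : v ≠ s) (hI : Inv P s v S)
    (hC : Comp P s cross good v S u (u' :: t)) {e : ℕ × ℕ} (he : e ∈ pairs (u :: u' :: (t ++ [s]))) :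
    (TXv P (T v) (D v) S).testBit (FW * u + q P.n e.1 e.2) = true ∧
    (TXv P (T v) (D v) S).testBit (FW * u + q P.n e.2 e.1) = true := by
  have hmem := mem_of_mem_pairs _ _ he
  have hu : u < P.n := hC.lt u (by simp)
  have hus : u ≠ s := by rintro rfl; exact hC.s_not (by simp)
  have huv : u ≠ v := by rintro rfl; exact (List.nodup_cons.mp hC.nodup).1 (by simp)
  have hul := hL u hu hus
  have hlt : ∀ x ∈ u :: u' :: (t ++ [s]), x < P.n := by
    intro x hx
    have : x ∈ u :: u' :: t ∨ x = s := by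
      simp only [List.mem_cons, List.mem_append, List.not_mem_nil, or_false] at hx ⊢; tauto
    rcases this with hx | rfl
    · exact hC.lt x hx
    · exact hs
  have hnv : ∀ x ∈ u :: u' :: (t ++ [s]), x ≠ v := by
    intro x hx
    have : x ∈ u :: u' :: t ∨ x = s := by
      simp only [List.mem_cons, List.mem_append, List.not_mem_nil, or_false] at hx ⊢; tauto
    rcases this with hx | rfl
    · rintro rfl; exact (List.nodup_cons.mp hC.nodup).1 hx
    · exact fun hh => hvs hh.symm
  have hnd : (u :: u' :: (t ++ [s])).Nodup := by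
    have h1 : (u :: u' :: t).Nodup := (List.nodup_cons.mp hC.nodup).2
    have h2 : s ∉ u :: u' :: t := fun hh => hC.s_not (List.mem_cons_of_mem _ hh)
    have : (u :: u' :: (t ++ [s])) = (u :: u' :: t) ++ [s] := rfl
    rw [this]
    rw [List.nodup_append]
    refine ⟨h1, by simp, ?_⟩
    intro a ha b hb
    simp only [List.mem_cons, List.not_mem_nil, or_false] at hb
    subst hb
    rintro rfl
    exact h2 ha
  have hne := ne_of_mem_pairs _ _ hnd he
  have hpl := pair_ne_last hnd he
  have hE := hC.edges e (sub_pairs he)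
  have h1 := hlt _ hmem.1
  have h2 := hlt _ hmem.2
  have v1 := hnv _ hmem.1
  have v2 := hnv _ hmem.2
  have hcr : e.1 = u ∨ e.2 = u ∨ cross v u e.1 e.2 = false := by
    by_cases a1 : e.1 = u
    · left; exact a1
    · by_cases a2 : e.2 = u
      · right; left; exact a2
      · right; right
        exact hC.nocross (v, u) (by simp [pairs]) e (sub_pairs he) (fun hh => v1 hh.symm) (fun hh => v2 hh.symm)
          (fun hh => a1 hh.symm) (fun hh => a2 hh.symm)
  constructor
  · rw [TXv_bit hp (hI.lt_FW hp) hul (q_lt_FW hp h1 (by omega)), hE.1,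
      h.T_edge v hv hvs u hul huv hus e.1 h1 e.2 h2 hne v1 v2 hpl.1 hpl.2 (by tauto)]
    rfl
  · rw [TXv_bit hp (hI.lt_FW hp) hul (q_lt_FW hp h2 (by omega)), hE.2,
      h.T_edge v hv hvs u hul huv hus e.2 h2 e.1 h1 (Ne.symm hne) v2 v1 (fun hh => hpl.2 ⟨hh.2, hh.1⟩)
        (fun hh => hpl.1 ⟨hh.2, hh.1⟩) (by tauto)]
    rfl

/-- Diagonal and flag bits of visited vertices survive in the child's lane. -/
theorem TX_cover {v S u u' : ℕ} {t : List ℕ} (hv : v < P.n) (hvs : v ≠ s) (hI : Inv P s v S)
    (hC : Comp P s cross good v S u (u' :: t)) {i : ℕ} (hi : i < P.n) (his : i ≠ s) (hil : i ∉ u :: u' :: t) :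
    (TXv P (T v) (D v) S).testBit (FW * u + q P.n i i) = true ∧
    (TXv P (T v) (D v) S).testBit (FW * u + q P.n i P.n) = true := by
  have hu : u < P.n := hC.lt u (by simp)
  have hus : u ≠ s := by rintro rfl; exact hC.s_not (by simp)
  have huv : u ≠ v := by rintro rfl; exact (List.nodup_cons.mp hC.nodup).1 (by simp)
  have hul := hL u hu hus
  rw [TXv_bit hp (hI.lt_FW hp) hul (q_lt_FW hp hi (by omega)), TXv_bit hp (hI.lt_FW hp) hul (q_lt_FW hp hi (by omega))]
  rw [h.T_diag v hv hvs u hul huv hus i hi, h.T_flag v hv hvs u hul huv hus i hi]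
  by_cases hiv : i = v
  · subst hiv
    rw [hI.diagv, h.D_flag i hv hvs u hul huv hus]; simp
  · rcases hI.cover i hi hiv his with h1 | ⟨h1, h2⟩
    · exact absurd ((hC.mem i hi).mp h1) hil
    · rw [h1, h2]; simp

/-- Every row of the child's lane has two set bits. -/
theorem TX_rows {v S u u' : ℕ} {t : List ℕ} (hv : v < P.n) (hvs : v ≠ s) (hI : Inv P s v S)
    (hC : Comp P s cross good v S u (u' :: t)) :
    ∀ i < P.n, ∃ a b, a ≠ b ∧ a ≤ P.n ∧ b ≤ P.n ∧ (TXv P (T v) (D v) S).testBit (FW * u + q P.n i a) = true ∧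
      (TXv P (T v) (D v) S).testBit (FW * u + q P.n i b) = true := by
  intro i hi
  have hu : u < P.n := hC.lt u (by simp)
  have hus : u ≠ s := by rintro rfl; exact hC.s_not (by simp)
  have huv : u ≠ v := by rintro rfl; exact (List.nodup_cons.mp hC.nodup).1 (by simp)
  have hul := hL u hu hus
  have hedge := fun (e : ℕ × ℕ) (he : e ∈ pairs (u :: u' :: (t ++ [s]))) => TX_edges hp h hs hL hv hvs hI hC he
  have hlt : ∀ x ∈ u :: u' :: (t ++ [s]), x < P.n := by
    intro x hx
    have : x ∈ u :: u' :: t ∨ x = s := by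
      simp only [List.mem_cons, List.mem_append, List.not_mem_nil, or_false] at hx ⊢; tauto
    rcases this with hx | rfl
    · exact hC.lt x hx
    · exact hs
  have hnd : (u :: u' :: (t ++ [s])).Nodup := by
    have h1 : (u :: u' :: t).Nodup := (List.nodup_cons.mp hC.nodup).2
    have h2 : s ∉ u :: u' :: t := fun hh => hC.s_not (List.mem_cons_of_mem _ hh)
    have : (u :: u' :: (t ++ [s])) = (u :: u' :: t) ++ [s] := rfl
    rw [this]
    rw [List.nodup_append]
    refine ⟨h1, by simp, ?_⟩
    intro a ha b hb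
    simp only [List.mem_cons, List.not_mem_nil, or_false] at hb
    subst hb
    rintro rfl
    exact h2 ha
  by_cases his : i = s
  · subst his
    obtain ⟨x, hx, hxe⟩ := exists_last_edge (u' :: t) u i
    have hxn : x < P.n := hlt x (by
      simp only [List.mem_cons] at hx
      simp only [List.mem_cons, List.mem_append]; tauto)
    have hxs : x ≠ i := ne_of_mem_pairs _ _ hnd hxe
    refine ⟨i, x, Ne.symm hxs, by omega, by omega, ?_, (hedge _ hxe).2⟩
    rw [TXv_bit hp (hI.lt_FW hp) hul (q_lt_FW hp hi (by omega)), hI.diags, h.T_diag v hv hvs u hul huv hus i hi]; rfl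
  · by_cases hil : i ∈ u :: u' :: t
    · rcases List.mem_cons.mp hil with rfl | hil'
      · refine ⟨i, u', ?_, by omega, ?_, ?_, ?_⟩
        · rintro rfl; have := (List.nodup_cons.mp hnd).1; exact this (by simp)
        · have := hC.lt u' (by simp); omega
        · rw [TXv_bit hp (hI.lt_FW hp) hul (q_lt_FW hp hi (by omega)), h.D_diag v hv hvs i hul huv hus]; simp
        · exact (hedge (i, u') (by simp [pairs])).1
      · obtain ⟨x, y, h1, h2, h3⟩ := exists_two_edges (u' :: t) u s i hil'
        have hxy := h3 hnd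
        have hm1 := mem_of_mem_pairs _ _ h1
        have hm2 := mem_of_mem_pairs _ _ h2
        have hx := hlt x hm1.1
        have hy := hlt y hm2.2
        exact ⟨x, y, hxy, by omega, by omega, (hedge _ h1).2, (hedge _ h2).1⟩
    · obtain ⟨c1, c2⟩ := TX_cover hp h hs hL hv hvs hI hC hi his hil
      exact ⟨i, P.n, by omega, by omega, le_refl _, c1, c2⟩

end

end Pool.Agent.H57
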