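import Mathlib
import Pool.Agent.helper57.refl.Sound5

namespace Pool.Agent.H57
open Lane Refl

variable {P : Par} {FW L f s : ℕ} {cross : ℕ → ℕ → ℕ → ℕ → Bool} {good : ℕ → ℕ → ℕ → Bool} {T D RS : ℕ → ℕ}

/-- A number whose bits are lane bases has lanes `0` or `1`. -/
theorem lane_of_sub_REP (hp : POK P FW L f) {x : ℕ} (hx : Sub x P.REP) (k : ℕ) :
    lane FW k x = if x.testBit (FW * k) = true then 1 else 0 := by
  have hF := hp.FW_pos
  apply Nat.eq_of_testBit_eq
  intro j
  rw [testBit_lane]
  by_cases hj : j = 0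
  · subst hj
    by_cases hb : x.testBit (FW * k) = true
    · simp [hb, hF]
    · rw [Bool.not_eq_true] at hb
      simp [hb]
  · have h1 : (if x.testBit (FW * k) = true then 1 else 0 : ℕ).testBit j = false := by
      split_ifs
      · rw [← Bool.not_eq_true, Nat.testBit_one_eq_true_iff_self_eq_zero]; exact hj
      · simp
    rw [h1]
    by_cases hjF : j < FW
    · simp only [hjF, decide_true, Bool.true_and]
      by_contra hcon
      rw [Bool.not_eq_false] at hcon
      obtain ⟨k', _, he⟩ := hp.testBit_REP.mp (hx _ hcon)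
      have h2 := congrArg (· % FW) he
      simp only [Nat.mul_add_mod, Nat.mul_mod_right] at h2
      rw [Nat.mod_eq_of_lt hjF] at h2
      exact hj h2
    · simp [hjF]

theorem sub_small {x r t : ℕ} (hr : r ≤ 1) (hx : r ≤ x % 8) :
    (x - r) % 8 = x % 8 - r ∧ (3 ≤ t → (x - r).testBit t = x.testBit t) := by
  constructor
  · omega
  · intro ht
    have h1 : (x - r) / 8 = x / 8 := by omega
    have e : ∀ y : ℕ, y.testBit t = (y / 8).testBit (t - 3) := by
      intro y
      rw [show (8 : ℕ) = 2 ^ 3 by norm_num, Nat.testBit_div_two_pow]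
      congr 1; omega
    rw [e, e x, h1]

theorem mod8_eq_of_bits {x y : ℕ} (h : ∀ t < 3, x.testBit t = y.testBit t) : x % 8 = y % 8 := by
  apply Nat.eq_of_testBit_eq
  intro j
  rw [show (8 : ℕ) = 2 ^ 3 by norm_num, Nat.testBit_mod_two_pow, Nat.testBit_mod_two_pow]
  by_cases hj : j < 3
  · rw [h j hj]
  · simp [hj]

theorem force_eq (x : ℕ) (g : ℕ → Bool) : force x g = g x := by
  unfold force
  cases x with
  | zero =>
    show Bool.rec (motive := fun _ => Bool) false true (g 0) = g 0
    cases g 0 <;> rfl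
  | succ n =>
    show Bool.rec (motive := fun _ => Bool) false true (g (Nat.succ n)) = g (n + 1)
    cases g (n + 1) <;> rfl

/-- The candidate mask. -/
def candv (rowv R S : ℕ) : ℕ :=
  Bool.rec (motive := fun _ => ℕ) rowv (Nat.xor rowv (Nat.land rowv R)) (Nat.beq (Nat.land S 7) 0)

theorem land7 (S : ℕ) : Nat.land S 7 = S % 8 := by
  show S &&& 7 = S % 8
  exact Nat.and_two_pow_sub_one_eq_mod S 3

theorem candv_bit (rowv R S k : ℕ) : (candv rowv R S).testBit k =
    (rowv.testBit k && !(decide (S % 8 = 0) && R.testBit k)) := by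
  unfold candv
  rw [land7]
  by_cases h0 : S % 8 = 0
  · have : Nat.beq (S % 8) 0 = true := by rw [h0]; rfl
    rw [this]
    show (rowv ^^^ (rowv &&& R)).testBit k = _
    rw [Nat.testBit_xor, Nat.testBit_and]
    simp only [h0, decide_true, Bool.true_and]
    cases rowv.testBit k <;> cases R.testBit k <;> rfl
  · have : Nat.beq (S % 8) 0 = false := by
      by_contra hc
      rw [Bool.not_eq_false] at hc
      exact h0 (Nat.eq_of_beq_eq_true hc)
    rw [this]
    simp only [h0, decide_false, Bool.false_and, Bool.not_false, Bool.and_true]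

end Pool.Agent.H57
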