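import Mathlib
import Pool.Agent.helper57.refl.Sound6

namespace Pool.Agent.H57
open Lane Refl

variable {P : Par} {FW L f s : ℕ} {cross : ℕ → ℕ → ℕ → ℕ → Bool} {good : ℕ → ℕ → ℕ → Bool} {T D RS : ℕ → ℕ}

theorem pairs_append_sub : ∀ (l : List ℕ) (z : ℕ) (e : ℕ × ℕ), e ∈ pairs l → e ∈ pairs (l ++ [z])
  | [], _, _, h => by simp [pairs] at h
  | [a], _, _, h => by simp [pairs] at h
  | a :: b :: t, z, e, h => by
    rw [List.cons_append, List.cons_append, mem_pairs_cons_cons]
    rcases mem_pairs_cons_cons.mp h with h1 | h1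
    · left; exact h1
    · right; exact pairs_append_sub (b :: t) z e h1

section
variable (hp : POK P FW L f) (h : TOK P FW L s cross good T D RS) (hs : s < P.n) (hL : ∀ u < P.n, u ≠ s → u < L)
include hp h hs hL

theorem TX_low3 {v S k : ℕ} (hv : v < P.n) (hvs : v ≠ s) (hI : Inv P s v S) (hk : k < L) :
    lane FW k (TXv P (T v) (D v) S) % 8 = S % 8 := by
  apply mod8_eq_of_bits
  intro t ht
  have htF : t < FW := by have := hp.q_le_FW; unfold q at this; omega
  rw [← testBit_of_lane htF, TXv_bit hp (hI.lt_FW hp) hk htF, h.T_b v hv hvs k hk t ht,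
    h.D_lo v hv hvs k hk t (by omega)]
  simp

/-- The bit of the child in the candidate mask. -/
theorem cb_bit {v S u u' : ℕ} {t : List ℕ} (hv : v < P.n) (hvs : v ≠ s) (hI : Inv P s v S)
    (hC : Comp P s cross good v S u (u' :: t)) {rowv R : ℕ} (hrow : rowv = (S >>> q P.n v 0) &&& P.Mn)
    (hR : R = S >>> P.rp) :
    ((okm P (TXv P (T v) (D v) S)) &&& (candv rowv R S * P.KF)).testBit (FW * u) = true := by
  have hu : u < P.n := hC.lt u (by simp)
  have hus : u ≠ s := by rintro rfl; exact hC.s_not (by simp)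
  have hul := hL u hu hus
  rw [Nat.testBit_and, Bool.and_eq_true]
  constructor
  · exact okm_bit hp (TXv_lt h hv hvs) (TXv_guard hp h hv hvs hI) hul (TX_rows hp h hs hL hv hvs hI hC)
  · have hrowlt : rowv < 2 ^ P.n := by
      rw [hrow, hp.Mn_eq]
      have : 0 < 2 ^ P.n := by positivity
      exact lt_of_le_of_lt Nat.and_le_right (by omega)
    have hc : candv rowv R S < 2 ^ P.n := by
      apply Nat.lt_pow_two_of_testBit
      intro j hj
      rw [candv_bit, Nat.testBit_lt_two_pow (lt_of_lt_of_le hrowlt (Nat.pow_le_pow_right (by norm_num) hj))]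
      rfl
    rw [spread_bit hp hc hul, candv_bit]
    have h1 : rowv.testBit u = true := by
      rw [hrow, Nat.testBit_and, Nat.testBit_shiftRight, hp.Mn_eq, Nat.testBit_two_pow_sub_one]
      have := (hC.edges (v, u) (by simp [pairs])).1
      simp only [hu, decide_true, Bool.and_true]
      have e : q P.n v 0 + u = q P.n v u := by unfold q; ring
      rw [e]; exact this
    rw [h1, Bool.true_and]
    by_cases h0 : S % 8 = 0
    · have ht := hC.turns
      rw [h0] at ht
      have : ¬ S.testBit (P.rp + u) = true := by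
        intro hb; rw [if_pos hb] at ht; omega
      rw [Bool.not_eq_true] at this
      rw [hR, Nat.testBit_shiftRight, this]; simp
    · simp [h0]

/-- Properties of the state of the child. -/
theorem child_state {v S u u' : ℕ} {t : List ℕ} (hv : v < P.n) (hvs : v ≠ s) (hI : Inv P s v S)
    (hC : Comp P s cross good v S u (u' :: t)) {rowv R cb : ℕ} (hrow : rowv = (S >>> q P.n v 0) &&& P.Mn)
    (hR : R = S >>> P.rp) (hcb : cb = (okm P (TXv P (T v) (D v) S)) &&& (candv rowv R S * P.KF)) :
    Inv P s u (lane FW u (tx3 P (TXv P (T v) (D v) S - (cb &&& (R * P.KF))))) ∧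
    Comp P s cross good u (lane FW u (tx3 P (TXv P (T v) (D v) S - (cb &&& (R * P.KF))))) u' t := by
  have hu : u < P.n := hC.lt u (by simp)
  have hus : u ≠ s := by rintro rfl; exact hC.s_not (by simp)
  have huv : u ≠ v := by rintro rfl; exact (List.nodup_cons.mp hC.nodup).1 (by simp)
  have hul := hL u hu hus
  have hrowlt : rowv < 2 ^ P.n := by
    rw [hrow, hp.Mn_eq]
    have : 0 < 2 ^ P.n := by positivity
    exact lt_of_le_of_lt Nat.and_le_right (by omega)
  have hcandlt : candv rowv R S < 2 ^ P.n := by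
    apply Nat.lt_pow_two_of_testBit
    intro j hj
    rw [candv_bit, Nat.testBit_lt_two_pow (lt_of_lt_of_le hrowlt (Nat.pow_le_pow_right (by norm_num) hj))]
    rfl
  have hRlt : R < 2 ^ P.n := by
    rw [hR, Nat.shiftRight_eq_div_pow, Nat.div_lt_iff_lt_mul (by positivity), ← pow_add, Nat.add_comm]
    exact hI.lt
  have hcbu := cb_bit hp h hs hL hv hvs hI hC hrow hR
  rw [← hcb] at hcbu
  have hcbR : Sub cb P.REP := by
    intro p hpp
    rw [hcb, Nat.testBit_and, Bool.and_eq_true] at hpp
    exact okm_sub P _ hpp.1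
  set TX := TXv P (T v) (D v) S with hTX
  set rs := cb &&& (R * P.KF) with hrs
  have hrsR : Sub rs P.REP := by
    intro p hpp
    rw [hrs, Nat.testBit_and, Bool.and_eq_true] at hpp
    exact hcbR p hpp.1
  have hrsle : ∀ k, lane FW k rs ≤ lane FW k TX := by
    intro k
    rw [lane_of_sub_REP hp hrsR k]
    split_ifs with hb
    · obtain ⟨k', hk', he⟩ := hp.testBit_REP.mp (hrsR _ hb)
      have hkk : k = k' := Nat.eq_of_mul_eq_mul_left hp.FW_pos he
      subst hkk
      have h3 := TX_low3 hp h hs hL hv hvs hI hk'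
      rw [hrs, Nat.testBit_and, Bool.and_eq_true] at hb
      obtain ⟨hb1, hb2⟩ := hb
      rw [hcb, Nat.testBit_and, Bool.and_eq_true, spread_bit hp hcandlt hk', candv_bit, Bool.and_eq_true] at hb1
      rw [spread_bit hp hRlt hk'] at hb2
      have hS0 : S % 8 ≠ 0 := by
        intro h0
        have := hb1.2.2
        rw [hb2, h0] at this
        simp at this
      rw [← hTX] at h3
      omega
    · omega
  have hr : lane FW u rs = if S.testBit (P.rp + u) = true then 1 else 0 := by
    rw [lane_of_sub_REP hp hrsR u]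
    have : rs.testBit (FW * u) = S.testBit (P.rp + u) := by
      rw [hrs, Nat.testBit_and, hcbu, Bool.true_and, spread_bit hp hRlt hul, hR, Nat.testBit_shiftRight]
    rw [this]
  have hX := lane_sub hrsle u
  set X2 := TX - rs with hX2
  have hr1 : lane FW u rs ≤ 1 := by rw [hr]; split_ifs <;> omega
  have hlow := TX_low3 hp h hs hL hv hvs hI hul
  rw [← hTX] at hlow
  have hr2 : lane FW u rs ≤ lane FW u TX % 8 := by
    rw [hlow, hr]
    split_ifs with hb
    · have := hC.turns
      rw [if_pos hb] at this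
      omega
    · omega
  -- bits of the child state
  set S' := lane FW u (tx3 P X2) with hS'
  have hbit : ∀ t', S'.testBit t' = true → t' < FW ∧ X2.testBit (FW * u + t') = true := by
    intro t' ht'
    rw [hS', testBit_lane, Bool.and_eq_true, decide_eq_true_eq] at ht'
    refine ⟨ht'.1, ?_⟩
    have e : tx3 P X2 = X2 &&& (((X2 &&& P.DR) * P.KR) ||| P.NR) := rfl
    rw [e, Nat.testBit_and, Bool.and_eq_true] at ht'
    exact ht'.2.1
  have hlo : ∀ t' < P.rp, S'.testBit t' = X2.testBit (FW * u + t') := by
    intro t' ht'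
    have htF : t' < FW := by have := hp.FW_ge; omega
    have e : tx3 P X2 = X2 &&& (((X2 &&& P.DR) * P.KR) ||| P.NR) := rfl
    rw [hS', testBit_lane, e, Nat.testBit_and, Nat.testBit_or]
    have hN : P.NR.testBit (FW * u + t') = true := by
      rw [testBit_of_lane htF, hp.lane_NR, if_pos hul, Nat.testBit_two_pow_sub_one]
      simp [ht']
    rw [hN]
    simp [htF]
  have hX2bit : ∀ t' < FW, 3 ≤ t' → X2.testBit (FW * u + t') = TX.testBit (FW * u + t') := by
    intro t' ht' h3
    rw [testBit_of_lane ht', testBit_of_lane ht', hX]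
    exact (sub_small hr1 hr2).2 h3
  have hSbit : ∀ t' < P.rp, 3 ≤ t' → S'.testBit t' = TX.testBit (FW * u + t') := by
    intro t' ht' h3
    rw [hlo t' ht', hX2bit t' (by have := hp.FW_ge; omega) h3]
  have hrp3 : 3 ≤ P.rp := by rw [hp.rp_eq]; exact three_le_q _ _ _
  have hS8 : S' % 8 = S % 8 - (if S.testBit (P.rp + u) = true then 1 else 0) := by
    have h1 : S' % 8 = lane FW u X2 % 8 := by
      apply mod8_eq_of_bits
      intro t' ht'
      have htF : t' < FW := by have := hp.FW_ge; omega
      rw [hlo t' (by omega), testBit_of_lane htF]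
    rw [h1, hX, (sub_small (t := 3) hr1 hr2).1, hlow, hr]
  have hedge := fun (e : ℕ × ℕ) (he : e ∈ pairs (u :: u' :: (t ++ [s]))) => TX_edges hp h hs hL hv hvs hI hC he
  have hndL : (u :: u' :: t).Nodup := (List.nodup_cons.mp hC.nodup).2
  have hlt : ∀ x ∈ u :: u' :: (t ++ [s]), x < P.n := by
    intro x hx
    have : x ∈ u :: u' :: t ∨ x = s := by
      simp only [List.mem_cons, List.mem_append, List.not_mem_nil, or_false] at hx ⊢; tauto
    rcases this with hx | rfl
    · exact hC.lt x hx
    · exact hs
  have hU : ∀ i < P.n, (S'.testBit (3 + i) = true ↔ i ∈ u' :: t) := by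
    intro i hi
    have h3i := low_lt_rp hp hi
    rw [hSbit (3 + i) h3i (by omega), hTX, TXv_bit hp (hI.lt_FW hp) hul (by have := hp.FW_ge; omega),
      h.T_U v hv hvs u hul huv hus i hi, h.D_lo v hv hvs u hul (3 + i) (by omega), Bool.or_false, Bool.and_eq_true,
      decide_eq_true_eq, hC.mem i hi]
    constructor
    · rintro ⟨hm, hne⟩
      rcases List.mem_cons.mp hm with h1 | h1
      · exact absurd h1 hne
      · exact h1
    · intro hm
      refine ⟨List.mem_cons_of_mem _ hm, ?_⟩
      rintro rfl
      exact (List.nodup_cons.mp hndL).1 hm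
  constructor
  · refine ⟨?_, ?_, ?_, ?_, ?_⟩
    · apply Nat.lt_pow_two_of_testBit
      intro j hj
      by_contra hcon
      rw [Bool.not_eq_false] at hcon
      obtain ⟨hjF, hb⟩ := hbit j hcon
      rw [hX2bit j hjF (by omega), hTX, TXv_bit hp (hI.lt_FW hp) hul hjF,
        h.T_hi v hv hvs u hul j (by omega) hjF, h.D_hi v hv hvs u hul j hj hjF] at hb
      simp at hb
    · intro i hi
      rw [hSbit _ (q_lt_rp hp hi (le_refl _)) (three_le_q _ _ _)]
      exact TXv_guard hp h hv hvs hI u hul i hi
    · rw [hSbit _ (q_lt_rp hp hu (by omega)) (three_le_q _ _ _), hTX,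
        TXv_bit hp (hI.lt_FW hp) hul (q_lt_FW hp hu (by omega)), h.D_diag v hv hvs u hul huv hus]
      simp
    · rw [hSbit _ (q_lt_rp hp hs (by omega)) (three_le_q _ _ _), hTX,
        TXv_bit hp (hI.lt_FW hp) hul (q_lt_FW hp hs (by omega)), hI.diags, h.T_diag v hv hvs u hul huv hus s hs]
      rfl
    · intro i hi hiu his
      by_cases hil : i ∈ u' :: t
      · left; exact (hU i hi).mpr hil
      · right
        have hil2 : i ∉ u :: u' :: t := by
          intro hm
          rcases List.mem_cons.mp hm with h1 | h1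
          · exact hiu h1
          · exact hil h1
        obtain ⟨c1, c2⟩ := TX_cover hp h hs hL hv hvs hI hC hi his hil2
        rw [hSbit _ (q_lt_rp hp hi (by omega)) (three_le_q _ _ _), hSbit _ (q_lt_rp hp hi (by omega)) (three_le_q _ _ _)]
        exact ⟨c1, c2⟩
  · refine ⟨hndL, fun hm => hC.s_not (List.mem_cons_of_mem _ hm), hU, fun i hi => hC.lt i (List.mem_cons_of_mem _ hi),
      ?_, ?_, ?_⟩
    · intro e he
      have hm := mem_of_mem_pairs _ _ he
      have h1 := hlt _ hm.1
      have h2 := hlt _ hm.2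
      rw [hSbit _ (q_lt_rp hp h1 (by omega)) (three_le_q _ _ _), hSbit _ (q_lt_rp hp h2 (by omega)) (three_le_q _ _ _)]
      exact hedge e he
    · intro e he g hg
      exact hC.nocross e (sub_pairs he) g (sub_pairs hg)
    · have hturn := hC.turns
      have htr : triples (v :: u :: ((u' :: t) ++ [s])) = (v, u, u') :: triples (u :: u' :: (t ++ [s])) := rfl
      rw [htr, List.countP_cons] at hturn
      have hu'n : u' < P.n := hC.lt u' (by simp)
      have himp : S'.testBit (P.rp + u') = true → good v u u' = true := by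
        intro hb
        obtain ⟨hF, hb2⟩ := hbit _ hb
        rw [hX2bit _ hF (by omega), hTX, TXv_bit hp (hI.lt_FW hp) hul hF,
          h.T_hi v hv hvs u hul _ (by omega) hF] at hb2
        simp only [Bool.and_false, Bool.false_or] at hb2
        exact h.D_R v hv hvs u hul huv hus u' hu'n hb2
      rw [hS8]
      by_cases hb : S'.testBit (P.rp + u') = true
      · rw [if_pos hb]
        have hg := himp hb
        simp only [hg, if_true] at hturn
        omega
      · rw [if_neg hb]
        omega

end

end Pool.Agent.H57
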