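import Mathlib
import Pool.Agent.helper57.refl.Sound7

namespace Pool.Agent.H57
open Lane Refl

variable {P : Par} {FW L f s : ℕ} {cross : ℕ → ℕ → ℕ → ℕ → Bool} {good : ℕ → ℕ → ℕ → Bool} {T D RS : ℕ → ℕ}

/-- Bits of `cb * Mn`. -/
theorem mask_bit (hp : POK P FW L f) {cb : ℕ} (hcb : Sub cb P.REP) (p : ℕ) :
    (cb * P.Mn).testBit p = (decide (p % FW < P.n) && cb.testBit (FW * (p / FW))) := by
  have hF := hp.FW_pos
  have hm : p % FW < FW := Nat.mod_lt _ hF
  have hMn : P.Mn < 2 ^ FW := by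
    rw [hp.Mn_eq]
    have h1 : 2 ^ P.n ≤ 2 ^ FW := Nat.pow_le_pow_right (by norm_num) (by have := hp.q_le_FW; omega)
    have h0 : 0 < 2 ^ P.n := by positivity
    omega
  have hmul : ∀ k, lane FW k cb * P.Mn < 2 ^ FW := by
    intro k
    rw [lane_of_sub_REP hp hcb]
    split_ifs
    · rw [one_mul]; exact hMn
    · rw [zero_mul]; positivity
  conv_lhs => rw [← Nat.div_add_mod p FW]
  rw [testBit_of_lane hm, lane_mul hmul, lane_of_sub_REP hp hcb]
  by_cases hb : cb.testBit (FW * (p / FW)) = true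
  · rw [if_pos hb, one_mul, hb, hp.Mn_eq, Nat.testBit_two_pow_sub_one, Bool.and_true]
  · rw [if_neg hb, zero_mul]
    rw [Bool.not_eq_true] at hb
    rw [hb]; simp

theorem seed_sub (P : Par) (UB : ℕ) : Sub (seed P UB) UB := by
  intro p hp
  have e : seed P UB = UB ^^^ (UB &&& ((UB ||| P.GB) - P.REP)) := rfl
  rw [e, Nat.testBit_xor, Nat.testBit_and] at hp
  cases h : UB.testBit p
  · rw [h] at hp; simp at hp
  · rfl

theorem seed_nonempty (hp : POK P FW L f) {UB : ℕ} (hU : Low P FW L UB) {w : ℕ} (hw : w < L)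
    (hne : ∃ i < P.n, UB.testBit (FW * w + i) = true) : ∃ i < P.n, (seed P UB).testBit (FW * w + i) = true := by
  have e : seed P UB = UB ^^^ (UB &&& ((UB ||| P.GB) - P.REP)) := rfl
  have hq := hp.q_le_FW
  have hsub : ∀ k, lane FW k ((UB ||| P.GB) - P.REP) = lane FW k (UB ||| P.GB) - lane FW k P.REP := by
    intro k
    apply lane_sub
    intro k
    rw [hp.lane_REP, lane_lor, hp.lane_GB]
    split_ifs
    · exact le_trans Nat.one_le_two_pow Nat.right_le_or
    · omega
  have hl : lane FW w (seed P UB) = lane FW w UB ^^^ (lane FW w UB &&& ((lane FW w UB ||| 2 ^ P.n) - 1)) := by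
    rw [e, lane_xor, lane_land, hsub, lane_lor, hp.lane_GB, hp.lane_REP, if_pos hw, if_pos hw]
  obtain ⟨i, hi, hb⟩ := hne
  have hpos : 0 < lane FW w UB := by
    rcases Nat.eq_zero_or_pos (lane FW w UB) with h0 | h0
    · exfalso
      have : (lane FW w UB).testBit i = true := by
        rw [testBit_lane, hb]; simp; omega
      rw [h0] at this; simp at this
    · exact h0
  have hne2 := seed_ne hpos (hU.lane_lt hp w)
  rw [← hl] at hne2
  obtain ⟨j, hj⟩ := Nat.exists_testBit_of_ne_zero hne2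
  rw [testBit_lane, Bool.and_eq_true, decide_eq_true_eq] at hj
  have hj2 := seed_sub P UB _ hj.2
  refine ⟨j, ?_, hj.2⟩
  by_contra hcon
  have : (lane FW w UB).testBit j = false :=
    Nat.testBit_lt_two_pow (lt_of_lt_of_le (hU.lane_lt hp w) (Nat.pow_le_pow_right (by norm_num) (by omega)))
  rw [testBit_lane, hj2] at this
  simp at this
  omega

section
variable (hp : POK P FW L f) (h : TOK P FW L s cross good T D RS) (hs : s < P.n) (hL : ∀ u < P.n, u ≠ s → u < L)
include hp h hs hL

/-- The child of a completion is really visited. -/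
theorem visit_bit {v S u u' : ℕ} {t : List ℕ} (hv : v < P.n) (hvs : v ≠ s) (hI : Inv P s v S)
    (hC : Comp P s cross good v S u (u' :: t)) {rowv R cb UB c : ℕ} (hrow : rowv = (S >>> q P.n v 0) &&& P.Mn)
    (hR : R = S >>> P.rp) (hcb : cb = (okm P (TXv P (T v) (D v) S)) &&& (candv rowv R S * P.KF))
    (hUB : UB = (TXv P (T v) (D v) S >>> 3) &&& (cb * P.Mn))
    (hc : c = bfs P (TXv P (T v) (D v) S ||| P.DG) UB P.n (seed P UB)) :
    (((P.GB - (c ^^^ UB)) >>> P.n) &&& cb).testBit (FW * u) = true := by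
  have hu : u < P.n := hC.lt u (by simp)
  have hus : u ≠ s := by rintro rfl; exact hC.s_not (by simp)
  have huv : u ≠ v := by rintro rfl; exact (List.nodup_cons.mp hC.nodup).1 (by simp)
  have hul := hL u hu hus
  have hF := hp.FW_pos
  have hq := hp.q_le_FW
  have hcbu := cb_bit hp h hs hL hv hvs hI hC hrow hR
  rw [← hcb] at hcbu
  have hcbR : Sub cb P.REP := by
    intro p hpp
    rw [hcb, Nat.testBit_and, Bool.and_eq_true] at hpp
    exact okm_sub P _ hpp.1
  have hndL : (u :: u' :: t).Nodup := (List.nodup_cons.mp hC.nodup).2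
  have hLow : Low P FW L UB := by
    intro p hpp
    rw [hUB, Nat.testBit_and, Bool.and_eq_true, mask_bit hp hcbR, Bool.and_eq_true, decide_eq_true_eq] at hpp
    obtain ⟨_, h1, h2⟩ := hpp
    obtain ⟨k, hk, he⟩ := hp.testBit_REP.mp (hcbR _ h2)
    have hkk : p / FW = k := Nat.eq_of_mul_eq_mul_left hF he
    refine ⟨p / FW, by omega, p % FW, h1, ?_⟩
    exact (Nat.div_add_mod p FW).symm
  have hUl : ∀ i < P.n, (UB.testBit (FW * u + i) = true ↔ i ∈ u' :: t) := by
    intro i hi
    have h1 : (FW * u + i) % FW = i := by rw [Nat.mul_add_mod, Nat.mod_eq_of_lt (by omega)]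
    have h2 : (FW * u + i) / FW = u := by rw [Nat.mul_add_div hF, Nat.div_eq_of_lt (by omega), add_zero]
    rw [hUB, Nat.testBit_and, mask_bit hp hcbR, h1, h2, hcbu, Nat.testBit_shiftRight]
    have h3i := low_lt_rp hp hi
    rw [show 3 + (FW * u + i) = FW * u + (3 + i) by ring, TXv_bit hp (hI.lt_FW hp) hul (by have := hp.FW_ge; omega),
      h.T_U v hv hvs u hul huv hus i hi, h.D_lo v hv hvs u hul (3 + i) (by omega)]
    simp only [Bool.or_false, hi, decide_true, Bool.and_true, Bool.and_eq_true, decide_eq_true_eq]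
    rw [hC.mem i hi]
    constructor
    · rintro ⟨hm, hne⟩
      rcases List.mem_cons.mp hm with h1 | h1
      · exact absurd h1 hne
      · exact h1
    · intro hm
      refine ⟨List.mem_cons_of_mem _ hm, ?_⟩
      rintro rfl
      exact (List.nodup_cons.mp hndL).1 hm
  have hd : ∀ k < L, ∀ i < P.n, (TXv P (T v) (D v) S ||| P.DG).testBit (FW * k + q P.n i i) = true := by
    intro k hk i hi
    rw [Nat.testBit_or, hp.DG_bit k hk i hi]; simp
  have hln : ∀ i ∈ u' :: t, i < P.n := fun i hi => hC.lt i (List.mem_cons_of_mem _ hi)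
  have hA : ∀ e ∈ pairs (u' :: t), (TXv P (T v) (D v) S ||| P.DG).testBit (FW * u + q P.n e.1 e.2) = true ∧
      (TXv P (T v) (D v) S ||| P.DG).testBit (FW * u + q P.n e.2 e.1) = true := by
    intro e he
    have he2 : e ∈ pairs (u :: u' :: (t ++ [s])) := by
      apply sub_pairs
      exact pairs_append_sub (u' :: t) s e he
    obtain ⟨a1, a2⟩ := TX_edges hp h hs hL hv hvs hI hC he2
    rw [Nat.testBit_or, Nat.testBit_or, a1, a2]; simp
  have hu'n : u' < P.n := hC.lt u' (by simp)
  have hseed := seed_nonempty hp hLow hul ⟨u', hu'n, (hUl u' hu'n).mpr (by simp)⟩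
  have hfull := bfs_full hp hLow hd (t := P.n) (seed_sub P UB) hul hUl hln hA
    (fun e he => mem_of_mem_pairs _ _ he) hseed
  rw [← hc] at hfull
  have hcU : Sub c UB := by
    rcases bfs_spec hp hLow hd P.n (seed P UB) (seed_sub P UB) with h1 | ⟨_, h2, _⟩
    · rw [hc, h1]; exact fun p hp => hp
    · rw [hc]; exact h2
  have hDL : Low P FW L (c ^^^ UB) := by
    intro p hpp
    rw [Nat.testBit_xor] at hpp
    apply hLow
    cases h1 : UB.testBit p
    · rw [h1] at hpp
      simp at hpp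
      exact absurd (hcU p hpp) (by rw [h1]; simp)
    · rfl
  have hsub : ∀ k, lane FW k (P.GB - (c ^^^ UB)) = lane FW k P.GB - lane FW k (c ^^^ UB) := by
    intro k
    apply lane_sub
    intro k
    rw [hp.lane_GB]
    split_ifs with hk
    · exact le_of_lt (hDL.lane_lt hp k)
    · rw [hDL.lane_zero hp (by omega)]
  have hq3 := three_le_q P.n P.n 0
  rw [Nat.testBit_and, hcbu, Bool.and_true, Nat.testBit_shiftRight, Nat.add_comm,
    testBit_of_lane (by omega), hsub, hfull, hp.lane_GB, if_pos hul]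
  simp

/-- Soundness of one node of the search. -/
theorem node_sound {kids : (Rec → ℕ → Bool) → ℕ → Bool} {vtx : ℕ → Rec}
    (hvtx : ∀ w g S, vtx w g S = g (T w) (D w) (q P.n w 0) (RS w) S)
    (hkids : ∀ g cm, kids g cm = true → ∀ w < L, cm.testBit (FW * w) = true → g (vtx w) (FW * w) = true)
    {ih : Rec → ℕ → Bool} {k : ℕ}
    (hih : ∀ w < P.n, w ≠ s → ∀ S', ih (vtx w) S' = true → Inv P s w S' → ∀ u t, t.length = k →
      ¬ Comp P s cross good w S' u t)
    {v S : ℕ} (hv : v < P.n) (hvs : v ≠ s) (hn : vtx v (node P kids ih) S = true) (hI : Inv P s v S) :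
    ∀ u t, t.length = k + 1 → ¬ Comp P s cross good v S u t := by
  intro u t ht hC
  cases t with
  | nil => simp at ht
  | cons u' t =>
  have ht' : t.length = k := by simpa using ht
  have hu : u < P.n := hC.lt u (by simp)
  have hus : u ≠ s := by rintro rfl; exact hC.s_not (by simp)
  have hul := hL u hu hus
  rw [hvtx] at hn
  set rowv := (S >>> q P.n v 0) &&& P.Mn with hrow
  set R := S >>> P.rp with hR
  set cb := (okm P (TXv P (T v) (D v) S)) &&& (candv rowv R S * P.KF) with hcb
  set UB := (TXv P (T v) (D v) S >>> 3) &&& (cb * P.Mn) with hUB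
  set c := bfs P (TXv P (T v) (D v) S ||| P.DG) UB P.n (seed P UB) with hc
  have e : node P kids ih (T v) (D v) (q P.n v 0) (RS v) S =
      n3 P kids ih R (TXv P (T v) (D v) S) cb := rfl
  rw [e] at hn
  have hcbu := cb_bit hp h hs hL hv hvs hI hC hrow hR
  rw [← hcb] at hcbu
  have hne : Nat.beq cb 0 = false := by
    by_contra hcon
    rw [Bool.not_eq_false] at hcon
    have := Nat.eq_of_beq_eq_true hcon
    rw [this] at hcbu; simp at hcbu
  have hn4 : n4 P kids ih R (TXv P (T v) (D v) S) cb = true := by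
    have e3 : n3 P kids ih R (TXv P (T v) (D v) S) cb =
      Bool.rec (motive := fun _ => Bool) (n4 P kids ih R (TXv P (T v) (D v) S) cb) true (Nat.beq cb 0) := rfl
    rw [e3, hne] at hn
    exact hn
  have e4 : n4 P kids ih R (TXv P (T v) (D v) S) cb =
      kids (child P ih (tx3 P (TXv P (T v) (D v) S - (cb &&& (R * P.KF))))) (((P.GB - (c ^^^ UB)) >>> P.n) &&& cb) := rfl
  rw [e4] at hn4
  have hvis := visit_bit hp h hs hL hv hvs hI hC hrow hR hcb hUB hc
  have hch := hkids _ _ hn4 u hul hvis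
  have e5 : child P ih (tx3 P (TXv P (T v) (D v) S - (cb &&& (R * P.KF)))) (vtx u) (FW * u) =
      force ((tx3 P (TXv P (T v) (D v) S - (cb &&& (R * P.KF))) >>> (FW * u)) &&& P.MF) (ih (vtx u)) := rfl
  rw [e5, force_eq] at hch
  have e6 : (tx3 P (TXv P (T v) (D v) S - (cb &&& (R * P.KF))) >>> (FW * u)) &&& P.MF =
      lane FW u (tx3 P (TXv P (T v) (D v) S - (cb &&& (R * P.KF)))) := by
    rw [hp.MF_eq, Nat.and_two_pow_sub_one_eq_mod, Nat.shiftRight_eq_div_pow]; rfl
  rw [e6] at hch
  obtain ⟨hI', hC'⟩ := child_state hp h hs hL hv hvs hI hC hrow hR hcb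
  exact hih u hu hus _ hch hI' u' t ht' hC'

end

end Pool.Agent.H57
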