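import Mathlib
import Pool.Agent.helper57.refl.Sound8

namespace Pool.Agent.H57
open Lane Refl

variable {P : Par} {FW L f s : ℕ} {cross : ℕ → ℕ → ℕ → ℕ → Bool} {good : ℕ → ℕ → ℕ → Bool} {T D RS : ℕ → ℕ}

theorem last_sound (hp : POK P FW L f) (h : TOK P FW L s cross good T D RS) (hs : s < P.n) (hss : P.ss = q P.n s 0)
    {v S : ℕ} (hv : v < P.n) (hvs : v ≠ s) (hl : last P (T v) (D v) (q P.n v 0) (RS v) S = true) (u : ℕ) :
    ¬ Comp P s cross good v S u [] := by
  intro hC
  have hu : u < P.n := hC.lt u (by simp)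
  set U := (S >>> 3) &&& P.Mn with hU
  set row := (S >>> q P.n v 0) &&& P.Mn with hrow
  have hUb : ∀ i, U.testBit i = true ↔ i = u := by
    intro i
    rw [hU, Nat.testBit_and, Nat.testBit_shiftRight, hp.Mn_eq, Nat.testBit_two_pow_sub_one, Bool.and_eq_true,
      decide_eq_true_eq]
    constructor
    · rintro ⟨h1, h2⟩
      have := (hC.mem i h2).mp h1
      simpa using this
    · rintro rfl
      exact ⟨(hC.mem i hu).mpr (by simp), hu⟩
  have hne : ∀ x, x.testBit u = true → Nat.beq (Nat.land x U) 0 = false := by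
    intro x hx
    by_contra hcon
    rw [Bool.not_eq_false] at hcon
    have h0 := Nat.eq_of_beq_eq_true hcon
    have h1 : (x &&& U).testBit u = true := by rw [Nat.testBit_and, hx, (hUb u).mpr rfl]; rfl
    have h2 : x &&& U = 0 := h0
    rw [h2] at h1; simp at h1
  have h1 : row.testBit u = true := by
    rw [hrow, Nat.testBit_and, Nat.testBit_shiftRight, hp.Mn_eq, Nat.testBit_two_pow_sub_one]
    have := (hC.edges (v, u) (by simp [pairs])).1
    simp only [hu, decide_true, Bool.and_true]
    have e : q P.n v 0 + u = q P.n v u := by unfold q; ring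
    rw [e]; exact this
  have h2 : (S >>> P.ss).testBit u = true := by
    rw [Nat.testBit_shiftRight, hss]
    have := (hC.edges (u, s) (by simp [pairs])).2
    have e : q P.n s 0 + u = q P.n s u := by unfold q; ring
    rw [e]; exact this
  have e1 : last P (T v) (D v) (q P.n v 0) (RS v) S =
    Bool.rec (motive := fun _ => Bool)
    (Bool.rec (motive := fun _ => Bool)
      (Nat.ble (Nat.succ (Nat.land S 7))
        (Nat.add (Bool.rec (motive := fun _ => Nat) 1 0 (Nat.beq (Nat.land (S >>> P.rp) U) 0))
          (Bool.rec (motive := fun _ => Nat) 1 0 (Nat.beq (Nat.land (RS v) U) 0))))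
      true (Nat.beq (Nat.land (S >>> P.ss) U) 0))
    true (Nat.beq (Nat.land row U) 0) := rfl
  rw [e1, hne row h1, hne _ h2] at hl
  have hl2 : Nat.ble (Nat.succ (Nat.land S 7))
        (Nat.add (Bool.rec (motive := fun _ => Nat) 1 0 (Nat.beq (Nat.land (S >>> P.rp) U) 0))
          (Bool.rec (motive := fun _ => Nat) 1 0 (Nat.beq (Nat.land (RS v) U) 0))) = true := hl
  have hl3 := Nat.le_of_ble_eq_true hl2
  rw [land7] at hl3
  have hbit : ∀ x : ℕ, (Bool.rec (motive := fun _ => Nat) 1 0 (Nat.beq (Nat.land x U) 0) : ℕ) ≤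
      if x.testBit u = true then 1 else 0 := by
    intro x
    by_cases hb : Nat.beq (Nat.land x U) 0 = true
    · rw [hb]; exact Nat.zero_le _
    · have hb0 := hb
      rw [Bool.not_eq_true] at hb
      rw [hb]
      have hne0 : x &&& U ≠ 0 := by
        intro h0
        apply hb0
        have : Nat.land x U = 0 := h0
        rw [this]; rfl
      obtain ⟨i, hi⟩ := Nat.exists_testBit_of_ne_zero hne0
      rw [Nat.testBit_and, Bool.and_eq_true] at hi
      have := (hUb i).mp hi.2
      subst this
      rw [if_pos hi.1]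
  have hR := hbit (S >>> P.rp)
  have hRS := hbit (RS v)
  rw [Nat.testBit_shiftRight] at hR
  have ht := hC.turns
  have htr : triples (v :: u :: (([] : List ℕ) ++ [s])) = [(v, u, s)] := rfl
  rw [htr] at ht
  have hcount : List.countP (fun z : ℕ × ℕ × ℕ => good z.1 z.2.1 z.2.2) [(v, u, s)] =
      if good v u s = true then 1 else 0 := by
    rw [List.countP_cons]; simp
  rw [hcount] at ht
  have hRS2 : (if (RS v).testBit u = true then 1 else 0 : ℕ) ≤ if good v u s = true then 1 else 0 := by
    split_ifs with a b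
    · exact le_refl _
    · exact absurd (h.RS_bit v hv hvs u hu a) b
    · omega
    · omega
  have hl4 : S % 8 + 1 ≤ (Bool.rec (motive := fun _ => Nat) 1 0 (Nat.beq (Nat.land (S >>> P.rp) U) 0) : ℕ) +
      (Bool.rec (motive := fun _ => Nat) 1 0 (Nat.beq (Nat.land (RS v) U) 0) : ℕ) := hl3
  omega

/-- `ih` refutes completions of length `k + 1`. -/
def Sound (P : Par) (s : ℕ) (cross : ℕ → ℕ → ℕ → ℕ → Bool) (good : ℕ → ℕ → ℕ → Bool) (vtx : ℕ → Rec) (k : ℕ)
    (ih : Rec → ℕ → Bool) : Prop :=
  ∀ w < P.n, w ≠ s → ∀ S', ih (vtx w) S' = true → Inv P s w S' → ∀ u t, t.length = k →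
      ¬ Comp P s cross good w S' u t

section
variable (hp : POK P FW L f) (h : TOK P FW L s cross good T D RS) (hs : s < P.n) (hL : ∀ u < P.n, u ≠ s → u < L)
  (hss : P.ss = q P.n s 0)
  {kids : (Rec → ℕ → Bool) → ℕ → Bool} {vtx : ℕ → Rec}
  (hvtx : ∀ w g S, vtx w g S = g (T w) (D w) (q P.n w 0) (RS w) S)
  (hkids : ∀ g cm, kids g cm = true → ∀ w < L, cm.testBit (FW * w) = true → g (vtx w) (FW * w) = true)
include hp h hs hL hvtx hkids

theorem searchB_sound {base : Rec → ℕ → Bool} {k0 : ℕ} (hb : Sound P s cross good vtx k0 base) (d : ℕ) :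
    Sound P s cross good vtx (k0 + d) (searchB P kids base d) := by
  induction d with
  | zero => exact hb
  | succ d ih =>
    intro w hw hws S' hS' hI u t ht
    have e : searchB P kids base (d + 1) (vtx w) S' = vtx w (node P kids (searchB P kids base d)) S' := rfl
    rw [e] at hS'
    exact node_sound hp h hs hL hvtx hkids ih hw hws hS' hI u t ht

include hss

theorem search_sound (k : ℕ) : Sound P s cross good vtx k (search P kids k) := by
  have hb : Sound P s cross good vtx 0 (fun r => r (last P)) := by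
    intro w hw hws S' hS' _ u t ht
    have : t = [] := List.length_eq_zero_iff.mp ht
    subst this
    have e : (fun r : Rec => r (last P)) (vtx w) S' = last P (T w) (D w) (q P.n w 0) (RS w) S' := hvtx w _ S'
    rw [e] at hS'
    exact last_sound hp h hs hss hw hws hS' u
  have := searchB_sound hp h hs hL hvtx hkids hb k
  rw [zero_add] at this
  exact this

end

/-- The oracle that looks states up in a search tree. -/
noncomputable def orc (W rb FW Mn : ℕ) (t : Tr) : Rec → ℕ → Bool := fun r S =>
  r (fun _ _ vs _ S => look W rb t (Nat.add (Nat.shiftLeft (Nat.land (Nat.shiftRight S (nat_lit 3)) Mn) FW) S) vs S) S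

theorem allT_node (P : Par) (kids : (Rec → ℕ → Bool) → ℕ → Bool) (vtx : ℕ → Rec) (k key : ℕ) (l r : Tr) :
    allT P kids vtx k (Tr.node key l r) = (allT P kids vtx k l && allT P kids vtx k r) := by
  show Bool.rec (motive := fun _ => Bool) false (allT P kids vtx k r) (allT P kids vtx k l) = _
  cases allT P kids vtx k l <;> rfl

theorem look_sound {P : Par} {kids : (Rec → ℕ → Bool) → ℕ → Bool} {vtx : ℕ → Rec} {k W rb : ℕ} (t : Tr) (key vs S : ℕ)
    (hl : look W rb t key vs S = true) (ha : allT P kids vtx k t = true) :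
    ∃ v', v' * W + rb = vs ∧ search P kids k (vtx v') S = true := by
  induction t with
  | leaf v' S' =>
    have e : look W rb (Tr.leaf v' S') key vs S =
      Bool.rec (motive := fun _ => Bool) false (Nat.beq (v' * W + rb) vs) (Nat.beq S' S) := rfl
    rw [e] at hl
    by_cases h1 : Nat.beq S' S = true
    · rw [h1] at hl
      have h2 := Nat.eq_of_beq_eq_true hl
      have h3 := Nat.eq_of_beq_eq_true h1
      subst h3
      exact ⟨v', h2, ha⟩
    · rw [Bool.not_eq_true] at h1
      rw [h1] at hl
      exact absurd hl (by simp)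
  | node p l r ihl ihr =>
    rw [allT_node, Bool.and_eq_true] at ha
    have e : look W rb (Tr.node p l r) key vs S =
      Bool.rec (motive := fun _ => Bool) (look W rb l key vs S) (look W rb r key vs S) (Nat.ble p key) := rfl
    rw [e] at hl
    by_cases h1 : Nat.ble p key = true
    · rw [h1] at hl; exact ihr hl ha.2
    · rw [Bool.not_eq_true] at h1
      rw [h1] at hl; exact ihl hl ha.1

theorem orc_sound {kids : (Rec → ℕ → Bool) → ℕ → Bool} {vtx : ℕ → Rec} {k Mn : ℕ} {tr : Tr}
    (hvtx : ∀ w g S, vtx w g S = g (T w) (D w) (q P.n w 0) (RS w) S)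
    (hsound : Sound P s cross good vtx k (search P kids k)) (ha : allT P kids vtx k tr = true) :
    Sound P s cross good vtx k (orc (P.n + 2) (3 + P.n) FW Mn tr) := by
  intro w hw hws S' hS' hI u t ht
  unfold orc at hS'
  rw [hvtx] at hS'
  obtain ⟨v', h1, h2⟩ := look_sound tr _ _ _ hS' ha
  have : v' = w := by
    unfold q at h1
    have h3 : v' * (P.n + 2) = w * (P.n + 2) := by
      have : (P.n + 2) * w = w * (P.n + 2) := mul_comm _ _
      omega
    exact Nat.eq_of_mul_eq_mul_right (by omega) h3
  subst this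
  exact hsound v' hw hws S' h2 hI u t ht

/-- Specification of the root state for the first step `s → x1`. -/
structure RootOK (P : Par) (s : ℕ) (cross : ℕ → ℕ → ℕ → ℕ → Bool) (good left : ℕ → ℕ → ℕ → Bool) (K x1 S : ℕ) :
    Prop where
  lt : S < 2 ^ (P.rp + P.n)
  guard : ∀ i < P.n, S.testBit (q P.n i (P.n + 1)) = false
  diagv : S.testBit (q P.n x1 x1) = true
  diags : S.testBit (q P.n s s) = true
  U : ∀ i < P.n, S.testBit (3 + i) = decide (i ≠ x1 ∧ i ≠ s)
  edge : ∀ i < P.n, ∀ j < P.n, i ≠ j → ¬ (i = s ∧ j = x1) → ¬ (i = x1 ∧ j = s) →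
    (i = x1 ∨ j = x1 ∨ i = s ∨ j = s ∨ cross s x1 i j = false ∨ cross s x1 j i = false) →
    (i = s → left j s x1 = true) → (j = s → left i s x1 = true) → S.testBit (q P.n i j) = true
  R : ∀ x < P.n, S.testBit (P.rp + x) = true → good s x1 x = true
  b : S % 8 = K

theorem RootOK.inv {left : ℕ → ℕ → ℕ → Bool} {K x1 S : ℕ} (h : RootOK P s cross good left K x1 S) : Inv P s x1 S := by
  refine ⟨h.lt, h.guard, h.diagv, h.diags, ?_⟩
  intro i hi h1 h2
  left
  rw [h.U i hi]; simp [h1, h2]

theorem lt_of_mem_pairs_nodup {s x1 : ℕ} {l : List ℕ} (hnd : (s :: x1 :: l).Nodup) {e : ℕ × ℕ}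
    (he : e ∈ pairs (x1 :: (l ++ [s]))) : e.1 ≠ s := by
  -- the first component of an edge of the path is never the final `s`
  have key : ∀ (l : List ℕ) (x : ℕ), s ∉ x :: l → ∀ e ∈ pairs (x :: (l ++ [s])), e.1 ≠ s := by
    intro l
    induction l with
    | nil =>
      intro x hx e he
      simp [pairs] at he
      subst he
      simp at hx
      exact fun h => hx h.symm
    | cons y l ih =>
      intro x hx e he
      rw [List.cons_append, mem_pairs_cons_cons] at he
      rcases he with rfl | he
      · intro h; simp at h; subst h; simp at hx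
      · exact ih y (fun hm => hx (List.mem_cons_of_mem _ hm)) e he
  exact key l x1 (List.nodup_cons.mp hnd).1 e he

theorem last_edge_eq {s : ℕ} : ∀ (l : List ℕ) (x : ℕ), s ∉ x :: l → ∀ e ∈ pairs (x :: (l ++ [s])), e.2 = s →
    e.1 = (x :: l).getLast (by simp)
  | [], x, _, e, he, h2 => by
    simp [pairs] at he; subst he; simp
  | y :: l, x, hx, e, he, h2 => by
    rw [List.cons_append, mem_pairs_cons_cons] at he
    rcases he with rfl | he
    · simp at h2; subst h2; simp at hx
    · have := last_edge_eq l y (fun hm => hx (List.mem_cons_of_mem _ hm)) e he h2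
      rw [this]; simp

/-- The lower bound for all closed paths through `s`. -/
theorem lower {pts : ℕ → ℤ × ℤ} {K : ℕ} {vtx : ℕ → Rec} {srch : Rec → ℕ → Bool} (hs : s < P.n) (h3 : 3 ≤ P.n)
    (hsound : Sound P s (crs pts) good vtx (P.n - 3) srch)
    (root : ℕ → ℕ) (hroot : ∀ x1 < P.n, x1 ≠ s → RootOK P s (crs pts) good (lft pts) K x1 (root x1))
    (hrun : ∀ x1 < P.n, x1 ≠ s → srch (vtx x1) (root x1) = true) :
    ∀ l, CycOK P.n s pts l → K + 1 ≤ (triples (s :: l ++ [s])).countP (fun t => good t.1 t.2.1 t.2.2) := by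
  intro l hl
  obtain ⟨hnd, hmem, hnc, hne, hleft⟩ := hl
  by_contra hcon
  rw [not_le] at hcon
  -- length
  have hlen : (s :: l).length = P.n := by
    have h1 : (s :: l).toFinset = Finset.range P.n := by
      ext i; rw [List.mem_toFinset, Finset.mem_range]; exact hmem i
    rw [← List.toFinset_card_of_nodup hnd, h1, Finset.card_range]
  match l, hnd, hmem, hnc, hne, hleft, hcon, hlen with
  | [], _, _, _, hne, _, _, _ => exact hne rfl
  | [x1], _, _, _, _, _, _, hlen => simp at hlen; omega
  | x1 :: u :: t, hnd, hmem, hnc, hne, hleft, hcon, hlen =>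
    have hx1 : x1 < P.n := (hmem x1).mp (by simp)
    have hx1s : x1 ≠ s := by rintro rfl; simp at hnd
    have hR := hroot x1 hx1 hx1s
    have ht : t.length = P.n - 3 := by simp at hlen; omega
    have hsn : s ∉ x1 :: u :: t := (List.nodup_cons.mp hnd).1
    have hpsub : ∀ e, e ∈ pairs (x1 :: u :: (t ++ [s])) → e ∈ pairs (s :: (x1 :: u :: t) ++ [s]) := by
      intro e he
      show e ∈ pairs (s :: x1 :: (u :: (t ++ [s])))
      exact mem_pairs_cons_cons.mpr (Or.inr he)
    have hfirst : (s, x1) ∈ pairs (s :: (x1 :: u :: t) ++ [s]) := by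
      show (s, x1) ∈ pairs (s :: x1 :: (u :: (t ++ [s])))
      exact mem_pairs_cons_cons.mpr (Or.inl rfl)
    refine hsound x1 hx1 hx1s (root x1) (hrun x1 hx1 hx1s) hR.inv u t ht ?_
    have hlt : ∀ x ∈ x1 :: u :: (t ++ [s]), x < P.n := by
      intro x hx
      apply (hmem x).mp
      simp only [List.mem_cons, List.mem_append, List.not_mem_nil, or_false] at hx ⊢; tauto
    have hnd2 : (x1 :: u :: (t ++ [s])).Nodup := by
      have h1 : (x1 :: u :: t).Nodup := (List.nodup_cons.mp hnd).2
      have : (x1 :: u :: (t ++ [s])) = (x1 :: u :: t) ++ [s] := rfl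
      rw [this, List.nodup_append]
      refine ⟨h1, by simp, ?_⟩
      intro a ha b hb
      simp only [List.mem_cons, List.not_mem_nil, or_false] at hb
      subst hb
      rintro rfl
      exact hsn ha
    refine ⟨(List.nodup_cons.mp hnd).2, hsn, ?_, ?_, ?_, ?_, ?_⟩
    · intro i hi
      rw [hR.U i hi]
      have := hmem i
      simp only [decide_eq_true_eq]
      constructor
      · rintro ⟨a1, a2⟩
        have h1 := this.mpr hi
        simp only [List.mem_cons] at h1 ⊢
        tauto
      · intro hm
        constructor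
        · rintro rfl
          exact (List.nodup_cons.mp (List.nodup_cons.mp hnd).2).1 hm
        · rintro rfl
          exact hsn (List.mem_cons_of_mem _ hm)
    · intro i hi; exact (hmem i).mp (List.mem_cons_of_mem _ (List.mem_cons_of_mem _ hi))
    · intro e he
      have hm := mem_of_mem_pairs _ _ he
      have h1 := hlt _ hm.1
      have h2 := hlt _ hm.2
      have hne12 := ne_of_mem_pairs _ _ hnd2 he
      have hpl := pair_ne_last hnd2 he
      have he1 : e.1 ≠ s := lt_of_mem_pairs_nodup (l := u :: t) hnd he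
      have hl2 : e.2 = s → lft pts e.1 s x1 = true := by
        intro h2s
        have := last_edge_eq (u :: t) x1 hsn e he h2s
        rw [this]
        simpa using hleft
      have hcr : e.1 = x1 ∨ e.2 = x1 ∨ e.2 = s ∨ crs pts s x1 e.1 e.2 = false := by
        by_cases a1 : e.1 = x1
        · exact Or.inl a1
        · by_cases a2 : e.2 = x1
          · exact Or.inr (Or.inl a2)
          · by_cases a3 : e.2 = s
            · exact Or.inr (Or.inr (Or.inl a3))
            · exact Or.inr (Or.inr (Or.inr (hnc (s, x1) hfirst e (hpsub e he) (fun hh => he1 hh.symm)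
                (fun hh => a3 hh.symm) (fun hh => a1 hh.symm) (fun hh => a2 hh.symm))))
      constructor
      · refine hR.edge e.1 h1 e.2 h2 hne12 (fun hh => he1 hh.1) hpl.1 ?_ (fun hh => absurd hh he1) hl2
        rcases hcr with hh | hh | hh | hh
        · exact Or.inl hh
        · exact Or.inr (Or.inl hh)
        · exact Or.inr (Or.inr (Or.inr (Or.inl hh)))
        · exact Or.inr (Or.inr (Or.inr (Or.inr (Or.inl hh))))
      · refine hR.edge e.2 h2 e.1 h1 (Ne.symm hne12) (fun hh => hpl.1 ⟨hh.2, hh.1⟩) (fun hh => he1 hh.2)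
          ?_ hl2 (fun hh => absurd hh he1)
        rcases hcr with hh | hh | hh | hh
        · exact Or.inr (Or.inl hh)
        · exact Or.inl hh
        · exact Or.inr (Or.inr (Or.inl hh))
        · exact Or.inr (Or.inr (Or.inr (Or.inr (Or.inr hh))))
    · intro e he g hg
      exact hnc e (hpsub e he) g (hpsub g hg)
    · rw [hR.b]
      have htr : triples (s :: (x1 :: u :: t) ++ [s]) = (s, x1, u) :: triples (x1 :: u :: (t ++ [s])) := rfl
      rw [htr, List.countP_cons] at hcon
      have hun : u < P.n := hlt u (by simp)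
      by_cases hb : (root x1).testBit (P.rp + u) = true
      · rw [if_pos hb]
        have hg := hR.R u hun hb
        simp only [hg, if_true] at hcon
        omega
      · rw [if_neg hb]
        omega

end Pool.Agent.H57
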