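import Mathlib
import Pool.Agent.helper57.refl.Sound9

/-! Kernel-friendly Boolean checks of the table specifications. -/

namespace Pool.Agent.H57
open Lane Refl

def repN (F : ℕ) (L : ℕ) : ℕ := Nat.rec (motive := fun _ => ℕ) 0 (fun k r => Nat.add r (Nat.pow 2 (Nat.mul F k))) L

theorem repN_eq (F L : ℕ) : repN F L = rep F L := by
  induction L with
  | zero => simp [repN, rep_zero]
  | succ L ih =>
    have e : repN F (L + 1) = repN F L + 2 ^ (F * L) := rfl
    rw [e, ih, rep_succ]

/-- Bounded universal quantifier. -/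
def allN (n : ℕ) (p : ℕ → Bool) : Bool :=
  Nat.rec (motive := fun _ => Bool) true (fun k ih => Bool.rec (motive := fun _ => Bool) false ih (p k)) n

theorem allN_spec {n : ℕ} {p : ℕ → Bool} (h : allN n p = true) : ∀ k < n, p k = true := by
  induction n with
  | zero => intro k hk; omega
  | succ n ih =>
    have e : allN (n + 1) p = Bool.rec (motive := fun _ => Bool) false (allN n p) (p n) := rfl
    rw [e] at h
    intro k hk
    cases hp : p n with
    | false => rw [hp] at h; exact absurd h (by simp)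
    | true =>
      rw [hp] at h
      have h' : allN n p = true := h
      rcases Nat.lt_succ_iff_lt_or_eq.mp hk with h1 | h1
      · exact ih h' k h1
      · rw [h1]; exact hp

/-- Kernel-friendly bit test. -/
def tb (x i : ℕ) : Bool := Nat.beq (Nat.land (Nat.shiftRight x i) (nat_lit 1)) (nat_lit 1)

theorem tb_eq (x i : ℕ) : tb x i = x.testBit i := by
  have e : tb x i = Nat.beq ((x >>> i) &&& 1) 1 := rfl
  rw [e, Nat.and_one_is_mod, Nat.testBit_eq_decide_div_mod_eq, Nat.shiftRight_eq_div_pow]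
  by_cases h : x / 2 ^ i % 2 = 1
  · rw [h]; simp
  · have h0 : x / 2 ^ i % 2 = 0 := by omega
    rw [h0]; rfl

def pokB (P : Par) (FW L f : ℕ) : Bool :=
  Nat.ble 2 P.n && Nat.ble L P.n && Nat.beq FW ((P.n + 1) * f) && Nat.ble P.n f && Nat.beq P.rp (q P.n P.n 0) &&
  Nat.ble (P.rp + P.n) FW && Nat.beq P.sh ((P.n + 1) * P.n + (3 + P.n)) && Nat.beq P.Mn (2 ^ P.n - 1) &&
  Nat.beq P.MF (2 ^ FW - 1) && Nat.beq P.REP (repN FW L) &&
  Nat.beq P.G (2 ^ (P.n + 1) * (2 ^ (3 + P.n) * repN (P.n + 2) P.n) * repN FW L) &&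
  Nat.beq P.O ((2 ^ (3 + P.n) * repN (P.n + 2) P.n) * repN FW L) &&
  Nat.beq P.MX (((2 ^ (P.n + 1) - 1) * (2 ^ (3 + P.n) * repN (P.n + 2) P.n)) * repN FW L) &&
  Nat.beq P.MXFB (((2 ^ (P.n + 1) - 1) * (2 ^ (3 + P.n) * repN (P.n + 2) P.n) + 2 ^ (3 + P.n)) * repN FW L) &&
  Nat.beq P.KF (repN (FW - 1) L) && Nat.beq P.Kn (repN (P.n + 1) P.n) &&
  Nat.beq P.RB (2 ^ (3 + P.n) * repN (P.n + 2) P.n) && Nat.beq P.GB (2 ^ P.n * repN FW L) &&
  Nat.beq P.NR ((2 ^ P.rp - 1) * repN FW L) &&
  allN L (fun k => allN P.n fun i => tb P.DG (FW * k + q P.n i i))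

theorem pok_of_B {P : Par} {FW L f : ℕ} (h : pokB P FW L f = true) : POK P FW L f := by
  unfold pokB at h
  simp only [Bool.and_eq_true] at h
  obtain ⟨⟨⟨⟨⟨⟨⟨⟨⟨⟨⟨⟨⟨⟨⟨⟨⟨⟨⟨a1, a2⟩, a3⟩, a4⟩, a5⟩, a6⟩, a7⟩, a8⟩, a9⟩, a10⟩, a11⟩, a12⟩, a13⟩, a14⟩, a15⟩, a16⟩, a17⟩,
    a18⟩, a19⟩, a20⟩ := h
  simp only [repN_eq] at *
  exact
    { hn := Nat.le_of_ble_eq_true a1
      L_le := Nat.le_of_ble_eq_true a2
      FW_eq := Nat.eq_of_beq_eq_true a3
      f_ge := Nat.le_of_ble_eq_true a4
      rp_eq := Nat.eq_of_beq_eq_true a5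
      FW_ge := Nat.le_of_ble_eq_true a6
      sh_eq := Nat.eq_of_beq_eq_true a7
      Mn_eq := Nat.eq_of_beq_eq_true a8
      MF_eq := Nat.eq_of_beq_eq_true a9
      REP_eq := Nat.eq_of_beq_eq_true a10
      G_eq := Nat.eq_of_beq_eq_true a11
      O_eq := Nat.eq_of_beq_eq_true a12
      MX_eq := Nat.eq_of_beq_eq_true a13
      MXFB_eq := Nat.eq_of_beq_eq_true a14
      KF_eq := Nat.eq_of_beq_eq_true a15
      Kn_eq := Nat.eq_of_beq_eq_true a16
      RB_eq := Nat.eq_of_beq_eq_true a17
      GB_eq := Nat.eq_of_beq_eq_true a18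
      NR_eq := Nat.eq_of_beq_eq_true a19
      DG_bit := by
        intro k hk i hi
        have := allN_spec (allN_spec a20 k hk) i hi
        rwa [tb_eq] at this }

/-- Table of a ternary predicate on indices `< n`. -/
def tabB (n tab : ℕ) (p : ℕ → ℕ → ℕ → Bool) : Bool :=
  allN n fun a => allN n fun b => allN n fun c => (tb tab ((a * n + b) * n + c) == p a b c)

theorem tab_spec {n tab : ℕ} {p : ℕ → ℕ → ℕ → Bool} (h : tabB n tab p = true) {a b c : ℕ} (ha : a < n) (hb : b < n)
    (hc : c < n) : tb tab ((a * n + b) * n + c) = p a b c := by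
  have := allN_spec (allN_spec (allN_spec h a ha) b hb) c hc
  simpa using this

def tri (n tab a b c : ℕ) : Bool := tb tab ((a * n + b) * n + c)

def crsT (n tab a b c d : ℕ) : Bool :=
  (tri n tab a b c != tri n tab a b d) && (tri n tab c d a != tri n tab c d b)

theorem crsT_eq {n tab : ℕ} {pts : ℕ → ℤ × ℤ} (h : tabB n tab (lft pts) = true) {a b c d : ℕ} (ha : a < n) (hb : b < n)
    (hc : c < n) (hd : d < n) : crsT n tab a b c d = crs pts a b c d := by
  unfold crsT crs tri
  rw [tab_spec h ha hb hc, tab_spec h ha hb hd, tab_spec h hc hd ha, tab_spec h hc hd hb]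

def edgeB (n s tab v k tl i j : ℕ) : Bool :=
  Nat.beq i j || Nat.beq i v || Nat.beq j v || (Nat.beq i k && Nat.beq j s) || (Nat.beq i s && Nat.beq j k) ||
    (!Nat.beq i k && !Nat.beq j k && crsT n tab v k i j && crsT n tab v k j i) || tb tl (q n i j)

def laneB (n FW L s rp tab gtab v k tl dl : ℕ) : Bool :=
  allN 3 (fun t => tb tl t) && allN (3 + n) (fun t => !tb dl t) && allN n (fun i => !tb dl (q n i (n + 1))) &&
  Nat.beq (Nat.shiftRight dl (rp + n)) 0 && Nat.beq (Nat.shiftRight tl rp) 0 &&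
  (Nat.beq k v || Nat.beq k s ||
    (allN n (fun i => tb tl (3 + i) == !Nat.beq i k) &&
     allN n (fun i => allN n fun j => edgeB n s tab v k tl i j) &&
     allN n (fun i => tb tl (q n i i)) && allN n (fun i => tb tl (q n i n)) &&
     tb dl (q n v n) && tb dl (q n k k) && allN n (fun x => !tb dl (rp + x) || tri n gtab v k x)))

def vtxB (n FW L s rp MF tab gtab v Tv Dv Rv : ℕ) : Bool :=
  Nat.beq v s || (Nat.ble (Tv + 1) (2 ^ (FW * L)) && Nat.ble (Dv + 1) (2 ^ (FW * L)) &&
    allN n (fun x => !tb Rv x || tri n gtab v x s) &&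
    allN L (fun k => laneB n FW L s rp tab gtab v k (Nat.land (Nat.shiftRight Tv (Nat.mul FW k)) MF)
      (Nat.land (Nat.shiftRight Dv (Nat.mul FW k)) MF)))

theorem beq_false {a b : ℕ} (h : a ≠ b) : Nat.beq a b = false := by
  by_contra hc
  rw [Bool.not_eq_false] at hc
  exact h (Nat.eq_of_beq_eq_true hc)

theorem tok_of_B {P : Par} {FW L f s : ℕ} (hp : POK P FW L f) {pts : ℕ → ℤ × ℤ} {good : ℕ → ℕ → ℕ → Bool} {tab gtab : ℕ}
    (hs : s < P.n) (htab : tabB P.n tab (lft pts) = true) (hg : tabB P.n gtab good = true) {T D RS : ℕ → ℕ}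
    (h : ∀ v < P.n, vtxB P.n FW L s P.rp P.MF tab gtab v (T v) (D v) (RS v) = true) :
    TOK P FW L s (crs pts) good T D RS := by
  have hF := hp.FW_pos
  have hmain : ∀ v < P.n, v ≠ s → (T v < 2 ^ (FW * L) ∧ D v < 2 ^ (FW * L)) ∧
      (∀ x < P.n, (RS v).testBit x = true → good v x s = true) ∧
      ∀ k < L, laneB P.n FW L s P.rp tab gtab v k (lane FW k (T v)) (lane FW k (D v)) = true := by
    intro v hv hvs
    have := h v hv
    unfold vtxB at this
    rw [beq_false hvs, Bool.false_or] at this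
    simp only [Bool.and_eq_true] at this
    obtain ⟨⟨⟨b1, b2⟩, b3⟩, b4⟩ := this
    refine ⟨⟨Nat.le_of_ble_eq_true b1, Nat.le_of_ble_eq_true b2⟩, ?_, ?_⟩
    · intro x hx hb
      have h1 := allN_spec b3 x hx
      rw [tb_eq, hb] at h1
      unfold tri at h1
      rw [tab_spec hg hv hx hs] at h1
      simpa using h1
    · intro k hk
      have h1 := allN_spec b4 k hk
      have e : ∀ x, Nat.land (Nat.shiftRight x (Nat.mul FW k)) P.MF = lane FW k x := by
        intro x
        show (x >>> (FW * k)) &&& P.MF = _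
        rw [hp.MF_eq, Nat.and_two_pow_sub_one_eq_mod, Nat.shiftRight_eq_div_pow]; rfl
      rwa [e, e] at h1
  -- unpack a lane
  have hlane : ∀ v < P.n, v ≠ s → ∀ k < L,
      (∀ t < 3, (lane FW k (T v)).testBit t = true) ∧ (∀ t < 3 + P.n, (lane FW k (D v)).testBit t = false) ∧
      (∀ i < P.n, (lane FW k (D v)).testBit (q P.n i (P.n + 1)) = false) ∧
      (∀ t, P.rp + P.n ≤ t → (lane FW k (D v)).testBit t = false) ∧
      (∀ t, P.rp ≤ t → (lane FW k (T v)).testBit t = false) ∧
      (k ≠ v → k ≠ s → (∀ i < P.n, (lane FW k (T v)).testBit (3 + i) = decide (i ≠ k)) ∧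
        (∀ i < P.n, ∀ j < P.n, edgeB P.n s tab v k (lane FW k (T v)) i j = true) ∧
        (∀ i < P.n, (lane FW k (T v)).testBit (q P.n i i) = true) ∧
        (∀ i < P.n, (lane FW k (T v)).testBit (q P.n i P.n) = true) ∧
        (lane FW k (D v)).testBit (q P.n v P.n) = true ∧ (lane FW k (D v)).testBit (q P.n k k) = true ∧
        (∀ x < P.n, (lane FW k (D v)).testBit (P.rp + x) = true → tri P.n gtab v k x = true)) := by
    intro v hv hvs k hk
    have h1 := (hmain v hv hvs).2.2 k hk
    unfold laneB at h1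
    simp only [Bool.and_eq_true] at h1
    obtain ⟨⟨⟨⟨⟨c1, c2⟩, c3⟩, c4⟩, c5⟩, c6⟩ := h1
    have hz : ∀ x r t : ℕ, Nat.beq (Nat.shiftRight x r) 0 = true → r ≤ t → x.testBit t = false := by
      intro x r t h0 hrt
      have h2 : x >>> r = 0 := Nat.eq_of_beq_eq_true h0
      have h3 : (x >>> r).testBit (t - r) = x.testBit t := by
        rw [Nat.testBit_shiftRight]; congr 1; omega
      rw [← h3, h2]; simp
    refine ⟨?_, ?_, ?_, fun t ht => hz _ _ t c4 ht, fun t ht => hz _ _ t c5 ht, ?_⟩
    · intro t ht; have := allN_spec c1 t ht; rwa [tb_eq] at this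
    · intro t ht; have := allN_spec c2 t ht; rw [tb_eq] at this; simpa using this
    · intro i hi; have := allN_spec c3 i hi; rw [tb_eq] at this; simpa using this
    · intro hkv hks
      rw [beq_false hkv, beq_false hks, Bool.false_or, Bool.false_or] at c6
      simp only [Bool.and_eq_true] at c6
      obtain ⟨⟨⟨⟨⟨⟨d1, d2⟩, d3⟩, d4⟩, d5⟩, d6⟩, d7⟩ := c6
      refine ⟨?_, ?_, ?_, ?_, ?_, ?_, ?_⟩
      · intro i hi
        have := allN_spec d1 i hi
        rw [tb_eq] at this
        have h2 : (lane FW k (T v)).testBit (3 + i) = !Nat.beq i k := by simpa using this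
        rw [h2]
        by_cases hik : i = k
        · subst hik; simp
        · rw [beq_false hik]; simp [hik]
      · intro i hi j hj; exact allN_spec (allN_spec d2 i hi) j hj
      · intro i hi; have := allN_spec d3 i hi; rwa [tb_eq] at this
      · intro i hi; have := allN_spec d4 i hi; rwa [tb_eq] at this
      · rwa [tb_eq] at d5
      · rwa [tb_eq] at d6
      · intro x hx hb
        have := allN_spec d7 x hx
        rw [tb_eq, hb] at this
        simpa using this
  refine
    { T_lt := fun v hv hvs => (hmain v hv hvs).1.1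
      D_lt := fun v hv hvs => (hmain v hv hvs).1.2
      T_b := ?_
      D_lo := ?_
      D_guard := ?_
      D_hi := ?_
      T_hi := ?_
      T_U := ?_
      T_edge := ?_
      T_diag := ?_
      T_flag := ?_
      D_flag := ?_
      D_diag := ?_
      D_R := ?_
      RS_bit := fun v hv hvs => (hmain v hv hvs).2.1 }
  · intro v hv hvs k hk t ht
    have htF : t < FW := by have := hp.q_le_FW; unfold q at this; omega
    rw [testBit_of_lane htF]; exact (hlane v hv hvs k hk).1 t ht
  · intro v hv hvs k hk t ht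
    have htF : t < FW := by have := hp.q_le_FW; unfold q at this; omega
    rw [testBit_of_lane htF]; exact (hlane v hv hvs k hk).2.1 t ht
  · intro v hv hvs k hk i hi
    rw [testBit_of_lane (q_lt_FW hp hi (le_refl _))]; exact (hlane v hv hvs k hk).2.2.1 i hi
  · intro v hv hvs k hk t ht htF
    rw [testBit_of_lane htF]; exact (hlane v hv hvs k hk).2.2.2.1 t ht
  · intro v hv hvs k hk t ht htF
    rw [testBit_of_lane htF]; exact (hlane v hv hvs k hk).2.2.2.2.1 t ht
  · intro v hv hvs w hw hwv hws i hi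
    have htF : 3 + i < FW := by have := low_lt_rp hp hi; have := hp.FW_ge; omega
    rw [testBit_of_lane htF]; exact ((hlane v hv hvs w hw).2.2.2.2.2 hwv hws).1 i hi
  · intro v hv hvs w hw hwv hws i hi j hj hij hiv hjv h1 h2 h3
    rw [testBit_of_lane (q_lt_FW hp hi (by omega))]
    have hwn : w < P.n := lt_of_lt_of_le hw hp.L_le
    have he := ((hlane v hv hvs w hw).2.2.2.2.2 hwv hws).2.1 i hi j hj
    unfold edgeB at he
    rw [beq_false hij, beq_false hiv, beq_false hjv, Bool.false_or, Bool.false_or, Bool.false_or, tb_eq] at he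
    have e1 : (Nat.beq i w && Nat.beq j s) = false := by
      by_cases hh : i = w
      · have : j ≠ s := fun hjs => h1 ⟨hh, hjs⟩
        rw [beq_false this, Bool.and_false]
      · rw [beq_false hh]; rfl
    have e2 : (Nat.beq i s && Nat.beq j w) = false := by
      by_cases hh : i = s
      · have : j ≠ w := fun hjs => h2 ⟨hh, hjs⟩
        rw [beq_false this, Bool.and_false]
      · rw [beq_false hh]; rfl
    have e3 : (!Nat.beq i w && !Nat.beq j w && crsT P.n tab v w i j && crsT P.n tab v w j i) = false := by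
      rcases h3 with h3 | h3 | h3 | h3
      · subst h3; simp
      · subst h3; simp
      · rw [crsT_eq htab hv hwn hi hj, h3]; simp
      · rw [crsT_eq htab hv hwn hj hi, h3]; simp
    rw [e1, e2, e3] at he
    simpa using he
  · intro v hv hvs w hw hwv hws i hi
    rw [testBit_of_lane (q_lt_FW hp hi (by omega))]; exact ((hlane v hv hvs w hw).2.2.2.2.2 hwv hws).2.2.1 i hi
  · intro v hv hvs w hw hwv hws i hi
    rw [testBit_of_lane (q_lt_FW hp hi (by omega))]; exact ((hlane v hv hvs w hw).2.2.2.2.2 hwv hws).2.2.2.1 i hi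
  · intro v hv hvs w hw hwv hws
    rw [testBit_of_lane (q_lt_FW hp hv (by omega))]; exact ((hlane v hv hvs w hw).2.2.2.2.2 hwv hws).2.2.2.2.1
  · intro v hv hvs w hw hwv hws
    have hwn : w < P.n := lt_of_lt_of_le hw hp.L_le
    rw [testBit_of_lane (q_lt_FW hp hwn (by omega))]; exact ((hlane v hv hvs w hw).2.2.2.2.2 hwv hws).2.2.2.2.2.1
  · intro v hv hvs w hw hwv hws x hx hb
    have hwn : w < P.n := lt_of_lt_of_le hw hp.L_le
    have hxF : P.rp + x < FW := by have := hp.FW_ge; omega
    rw [testBit_of_lane hxF] at hb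
    have := ((hlane v hv hvs w hw).2.2.2.2.2 hwv hws).2.2.2.2.2.2 x hx hb
    unfold tri at this
    rwa [tab_spec hg hv hwn hx] at this

def rootB (n s rp K tab gtab x1 S : ℕ) : Bool :=
  Nat.beq (Nat.shiftRight S (rp + n)) 0 && allN n (fun i => !tb S (q n i (n + 1))) && tb S (q n x1 x1) &&
  tb S (q n s s) && allN n (fun i => tb S (3 + i) == (!Nat.beq i x1 && !Nat.beq i s)) &&
  allN n (fun i => allN n fun j => Nat.beq i j || (Nat.beq i s && Nat.beq j x1) || (Nat.beq i x1 && Nat.beq j s) ||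
    (!Nat.beq i x1 && !Nat.beq j x1 && !Nat.beq i s && !Nat.beq j s && crsT n tab s x1 i j && crsT n tab s x1 j i) ||
    (Nat.beq i s && !tri n tab j s x1) || (Nat.beq j s && !tri n tab i s x1) || tb S (q n i j)) &&
  allN n (fun x => !tb S (rp + x) || tri n gtab s x1 x) && Nat.beq (Nat.land S 7) K

theorem root_of_B {P : Par} {FW L f s : ℕ} (_hp : POK P FW L f) {pts : ℕ → ℤ × ℤ} {good : ℕ → ℕ → ℕ → Bool}
    {tab gtab : ℕ} (hs : s < P.n) (htab : tabB P.n tab (lft pts) = true) (hg : tabB P.n gtab good = true) {K x1 S : ℕ}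
    (hx1 : x1 < P.n) (h : rootB P.n s P.rp K tab gtab x1 S = true) :
    RootOK P s (crs pts) good (lft pts) K x1 S := by
  unfold rootB at h
  simp only [Bool.and_eq_true] at h
  obtain ⟨⟨⟨⟨⟨⟨⟨a1, a2⟩, a3⟩, a4⟩, a5⟩, a6⟩, a7⟩, a8⟩ := h
  refine ⟨?_, ?_, ?_, ?_, ?_, ?_, ?_, ?_⟩
  · have h2 : S >>> (P.rp + P.n) = 0 := Nat.eq_of_beq_eq_true a1
    rw [Nat.shiftRight_eq_div_pow] at h2
    exact (Nat.div_eq_zero_iff_lt (by positivity)).mp h2
  · intro i hi; have := allN_spec a2 i hi; rw [tb_eq] at this; simpa using this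
  · rwa [tb_eq] at a3
  · rwa [tb_eq] at a4
  · intro i hi
    have := allN_spec a5 i hi
    rw [tb_eq] at this
    have h2 : S.testBit (3 + i) = (!Nat.beq i x1 && !Nat.beq i s) := by simpa using this
    rw [h2]
    by_cases h3 : i = x1
    · subst h3; simp
    · by_cases h4 : i = s
      · subst h4; simp
      · rw [beq_false h3, beq_false h4]; simp [h3, h4]
  · intro i hi j hj hij h1 h2 h3 h4 h5
    have he := allN_spec (allN_spec a6 i hi) j hj
    rw [beq_false hij, Bool.false_or, tb_eq] at he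
    have e1 : (Nat.beq i s && Nat.beq j x1) = false := by
      by_cases hh : i = s
      · have : j ≠ x1 := fun hjs => h1 ⟨hh, hjs⟩
        rw [beq_false this, Bool.and_false]
      · rw [beq_false hh]; rfl
    have e2 : (Nat.beq i x1 && Nat.beq j s) = false := by
      by_cases hh : i = x1
      · have : j ≠ s := fun hjs => h2 ⟨hh, hjs⟩
        rw [beq_false this, Bool.and_false]
      · rw [beq_false hh]; rfl
    have e3 : (!Nat.beq i x1 && !Nat.beq j x1 && !Nat.beq i s && !Nat.beq j s && crsT P.n tab s x1 i j &&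
        crsT P.n tab s x1 j i) = false := by
      rcases h3 with h3 | h3 | h3 | h3 | h3 | h3
      · subst h3; simp
      · subst h3; simp
      · subst h3; simp
      · subst h3; simp
      · rw [crsT_eq htab hs hx1 hi hj, h3]; simp
      · rw [crsT_eq htab hs hx1 hj hi, h3]; simp
    have e4 : (Nat.beq i s && !tri P.n tab j s x1) = false := by
      by_cases hh : i = s
      · have := h4 hh
        unfold tri
        rw [tab_spec htab hj hs hx1, this]; simp
      · rw [beq_false hh]; rfl
    have e5 : (Nat.beq j s && !tri P.n tab i s x1) = false := by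
      by_cases hh : j = s
      · have := h5 hh
        unfold tri
        rw [tab_spec htab hi hs hx1, this]; simp
      · rw [beq_false hh]; rfl
    rw [e1, e2, e3, e4, e5] at he
    simpa using he
  · intro x hx hb
    have := allN_spec a7 x hx
    rw [tb_eq, hb] at this
    unfold tri at this
    rw [tab_spec hg hs hx1 hx] at this
    simpa using this
  · have := Nat.eq_of_beq_eq_true a8
    rwa [land7] at this

/-! ### Helpers for the generated dispatch functions -/

theorem brecAnd {a b : Bool} (h : Bool.rec (motive := fun _ => Bool) false b a = true) : a = true ∧ b = true := by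
  cases a with
  | false => exact absurd h (by simp)
  | true => exact ⟨rfl, h⟩

theorem brecOr {item t : Bool} (h : Bool.rec (motive := fun _ => Bool) item true t = true) (ht : t = false) :
    item = true := by
  subst ht; exact h

theorem land_ne {cm m p : ℕ} (h1 : cm.testBit p = true) (h2 : tb m p = true) : Nat.beq (Nat.land cm m) 0 = false := by
  apply beq_false
  intro h0
  have h3 : (cm &&& m).testBit p = true := by
    rw [Nat.testBit_and, h1, ← tb_eq, h2]; rfl
  have h4 : cm &&& m = 0 := h0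
  rw [h4] at h3; simp at h3

end Pool.Agent.H57
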