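import Pool.Agent.helper18.refl.Upper
import Pool.Agent.helper70.refl.GeoLower

/-!
Assembly of the upper and the lower bound, with both bounds in the conclusion.
-/

namespace Pool.Agent.H57.Refl

/-- assembly modulo data -/
theorem assemble5 (LP LQ LS H : List (ℤ × ℤ)) (hdata : dataB LP LQ LS H = true)
    (hlow : ∀ (m : ℕ) [NeZero m] (f : Fin m → ℝ × ℝ), IsSimplePolygon m f → Set.range f = setL LP →
      5 ≤ reflexCount m f) :
    ∃ P S : Finset (ℝ × ℝ), 3 ≤ P.card ∧ ¬ Collinear ℝ (P : Set (ℝ × ℝ)) ∧ Disjoint P S ∧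
      (∀ q ∈ S, q ∈ interior (convexHull ℝ (P : Set (ℝ × ℝ)))) ∧
      rho (↑(P ∪ S)) ≤ 2 ∧ 5 ≤ rho (↑P) ∧ (rho (↑(P ∪ S)) : ℝ) < (rho ↑P : ℝ) / 2 := by
  simp only [dataB, Bool.and_eq_true, decide_eq_true_eq, List.all_eq_true, Bool.or_eq_true,
    List.contains_iff_mem, Bool.not_eq_true', Bool.eq_false_iff, ne_eq] at hdata
  obtain ⟨hP, hQ, hQa, hQr, h1, h2, h3, h4⟩ := hdata
  refine ⟨(LP.map toR).toFinset, (LS.map toR).toFinset, ?_, ?_, ?_, ?_, ?_⟩
  · rw [List.toFinset_card_of_nodup ((polyB_nodup hP).map toR_injective), List.length_map]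
    exact polyB_length hP
  · have hk := polyB_length hP
    have h5 := hP
    simp only [polyB, Bool.and_eq_true, decide_eq_true_eq, List.all_eq_true, List.mem_range] at h5
    have h6 := (h5.2.2 0 (by omega)).1
    simp only [Bool.not_eq_true', decide_eq_false_iff_not, zero_add] at h6
    have hm : ∀ i, ptL LP (i % LP.length) ∈ LP := by
      intro i
      have hi : i % LP.length < LP.length := Nat.mod_lt _ (by omega)
      rw [ptL_eq LP hi]; exact List.getElem_mem hi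
    have hm' : ∀ i, toR (ptL LP (i % LP.length)) ∈ (((LP.map toR).toFinset : Finset (ℝ × ℝ)) : Set (ℝ × ℝ)) := by
      intro i
      simp only [List.coe_toFinset, List.mem_map, Set.mem_ofPred_eq]
      exact ⟨_, hm i, rfl⟩
    have h0 := hm' 0
    rw [Nat.zero_mod] at h0
    refine not_collinear_of_det h0 (hm' 1) (hm' 2) ?_
    rw [det3_toR]
    exact_mod_cast h6
  · rw [Finset.disjoint_left]
    intro x hx hx'
    simp only [List.mem_toFinset, List.mem_map] at hx hx'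
    obtain ⟨p, hp, rfl⟩ := hx
    obtain ⟨q, hq, hqp⟩ := hx'
    have := toR_injective hqp
    subst this
    exact (h3 q hq).2.1 hp
  · intro x hx
    simp only [List.mem_toFinset, List.mem_map] at hx
    obtain ⟨q, hq, rfl⟩ := hx
    refine inB_spec (h3 q hq).2.2 fun a ha => ?_
    simp only [List.coe_toFinset, List.mem_map, Set.mem_ofPred_eq]
    exact ⟨a, h4 a ha, rfl⟩
  · have e1 : (((LP.map toR).toFinset : Finset (ℝ × ℝ)) : Set (ℝ × ℝ)) = setL LP := by
      ext x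
      simp only [List.coe_toFinset, List.mem_map, Set.mem_ofPred_eq, setL]
      exact ⟨fun ⟨p, hp, h⟩ => ⟨p, hp, h.symm⟩, fun ⟨p, hp, h⟩ => ⟨p, hp, h.symm⟩⟩
    have e2 : ((((LP.map toR).toFinset ∪ (LS.map toR).toFinset : Finset (ℝ × ℝ))) : Set (ℝ × ℝ)) = setL LQ := by
      ext x
      simp only [Finset.coe_union, List.coe_toFinset, List.mem_map, Set.mem_ofPred_eq, setL, Set.mem_union]
      constructor
      · rintro (⟨p, hp, rfl⟩ | ⟨p, hp, rfl⟩)
        · exact ⟨p, h2 p hp, rfl⟩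
        · exact ⟨p, (h3 p hp).1, rfl⟩
      · rintro ⟨p, hp, rfl⟩
        rcases h1 p hp with h | h
        · exact Or.inl ⟨p, h, rfl⟩
        · exact Or.inr ⟨p, h, rfl⟩
    rw [e1, e2]
    have h5 : rho (setL LQ) ≤ 2 := (rho_le hQ hQa).trans hQr
    have h6 : 5 ≤ rho (setL LP) := le_rho hP hlow
    have h7 : (rho (setL LQ) : ℝ) ≤ 2 := by exact_mod_cast h5
    have h8 : (5 : ℝ) ≤ (rho (setL LP) : ℝ) := by exact_mod_cast h6
    exact ⟨h5, h6, by linarith⟩

/-- assembly modulo data, with the lower bound in the form of `five_le_reflexCount` -/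
theorem assemble5_idx (n : ℕ) (pts : ℕ → ℤ × ℤ) (LP LQ LS H : List (ℤ × ℤ))
    (hdata : dataB LP LQ LS H = true) (hidx : idxB n pts LP = true)
    (hlow : ∀ (m : ℕ) [NeZero m] (f : Fin m → ℝ × ℝ), IsSimplePolygon m f →
      Set.range f = {x | ∃ i < n, x = (((pts i).1 : ℝ), ((pts i).2 : ℝ))} → 5 ≤ reflexCount m f) :
    ∃ P S : Finset (ℝ × ℝ), 3 ≤ P.card ∧ ¬ Collinear ℝ (P : Set (ℝ × ℝ)) ∧ Disjoint P S ∧
      (∀ q ∈ S, q ∈ interior (convexHull ℝ (P : Set (ℝ × ℝ)))) ∧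
      rho (↑(P ∪ S)) ≤ 2 ∧ 5 ≤ rho (↑P) ∧ (rho (↑(P ∪ S)) : ℝ) < (rho ↑P : ℝ) / 2 :=
  assemble5 LP LQ LS H hdata fun m _ f h1 h2 => hlow m f h1 (h2.trans (setL_eq_of_idxB hidx))

end Pool.Agent.H57.Refl
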